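import Pool.Agent.Lib.MP_fce888_co.C48.Stm

set_option autoImplicit false

namespace Pool.Agent.Lib.MP_fce888_co.C48

open Finset Pool.Agent.Lib.MP_fce888_co
open scoped Classical

/-- a circuit whose edges are in `T'` prevents `T'` from being acyclic -/
theorem ext_not_acyclic {V : Type} [Fintype V] (G T' : SimpleGraph V) (D : Finset (Sym2 V))
    (hD : IsCirc G D) (hDT : ∀ e ∈ D, e ∈ T'.edgeSet) : ¬ T'.IsAcyclic := by
  obtain ⟨m, γ, hm, hinj, hadj, rfl⟩ := hD
  intro hac
  rw [SimpleGraph.isAcyclic_iff_forall_adj_isBridge] at hac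
  have hedge : ∀ i : ℕ, i < m → T'.Adj (γ (i : ℤ)) (γ ((i : ℤ) + 1)) := by
    intro i hi
    have := hDT s(γ (i : ℤ), γ ((i : ℤ) + 1))
      (Finset.mem_image.mpr ⟨i, Finset.mem_range.mpr hi, rfl⟩)
    rwa [SimpleGraph.mem_edgeSet] at this
  have h0 : T'.Adj (γ 0) (γ 1) := by
    have := hedge 0 (by omega)
    simpa using this
  have hbr := hac h0
  rw [SimpleGraph.isBridge_iff] at hbr
  apply hbr
  have hreach : ∀ i : ℕ, i + 1 ≤ m →
      (T'.deleteEdges {s(γ 0, γ 1)}).Reachable (γ 1) (γ ((i : ℤ) + 1)) := by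
    intro i
    induction i with
    | zero =>
      intro _
      have : ((0 : ℕ) : ℤ) + 1 = 1 := by norm_num
      rw [this]
    | succ i ih =>
      intro hi
      refine (ih (by omega)).trans (SimpleGraph.Adj.reachable ?_)
      rw [SimpleGraph.deleteEdges_adj]
      have h1 := hedge (i + 1) (by omega)
      have e1 : ((i + 1 : ℕ) : ℤ) = (i : ℤ) + 1 := by push_cast; ring
      rw [e1] at h1 ⊢
      refine ⟨h1, ?_⟩
      rw [Set.mem_singleton_iff, Sym2.eq_iff]
      rintro (⟨h2, -⟩ | ⟨h2, h3⟩)
      · rw [hinj] at h2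
        have := Int.le_of_dvd (by omega) h2
        omega
      · rw [hinj] at h2 h3
        have h4 : (m : ℤ) ∣ ((i : ℤ) + 1 + 1 - 0) - ((i : ℤ) + 1 - 1) := dvd_sub h3 h2
        have h5 : ((i : ℤ) + 1 + 1 - 0) - ((i : ℤ) + 1 - 1) = 2 := by ring
        rw [h5] at h4
        have := Int.le_of_dvd (by omega) h4
        omega
  have h6 := hreach (m - 1) (by omega)
  have h7 : γ (((m - 1 : ℕ) : ℤ) + 1) = γ 0 := by
    rw [hinj]
    have : (((m - 1 : ℕ) : ℤ) + 1 - 0) = m := by omega
    rw [this]
  rw [h7] at h6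
  exact h6.symm

/-- a cycle of a subgraph is a circuit -/
theorem ext_acyclic {V : Type} [Fintype V] (G H' : SimpleGraph V) (H : Finset (Sym2 V))
    (hle : H' ≤ G) (hH : ∀ e ∈ H'.edgeSet, e ∈ H) (hacy : Acy G H) : H'.IsAcyclic := by
  intro v c hc
  have h3 := hc.three_le_length
  have hinj := hc.getVert_injOn'
  set m := c.length with hm
  have hm0 : (0 : ℤ) < m := by omega
  have hper : ∀ i : ℤ, H'.Adj (c.getVert (i % m).toNat) (c.getVert ((i + 1) % m).toNat) := by
    intro i
    have h1 := Int.emod_nonneg i hm0.ne'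
    have h2 := Int.emod_lt_of_pos i hm0
    by_cases hlt : i % m + 1 < m
    · have h4 : (i + 1) % m = i % m + 1 := by
        rw [Int.add_emod, Int.emod_eq_of_lt (by omega : (0 : ℤ) ≤ 1) (by omega),
          Int.emod_eq_of_lt (by omega) hlt]
      have h5 : (i % m + 1).toNat = (i % m).toNat + 1 := by omega
      rw [h4, h5]
      exact c.adj_getVert_succ (by omega)
    · have h4 : (i + 1) % m = 0 := by
        have h6 : i + 1 = (m : ℤ) * (i / m + 1) := by
          have := Int.mul_ediv_add_emod i m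
          have h7 : i % m = m - 1 := by omega
          rw [h7] at this
          linear_combination -this
        rw [h6]
        exact Int.mul_emod_right _ _
      have h5 : (i % m).toNat = m - 1 := by omega
      rw [h4, h5]
      have h8 := c.adj_getVert_succ (i := m - 1) (by omega)
      have h9 : m - 1 + 1 = c.length := by omega
      rw [h9, c.getVert_length] at h8
      simpa using h8
  refine hacy ((range m).image fun i : ℕ =>
    s(c.getVert (((i : ℤ)) % m).toNat, c.getVert (((i : ℤ) + 1) % m).toNat)) ?_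
    ⟨m, fun i : ℤ => c.getVert (i % m).toNat, h3, ?_, fun i => hle (hper i), rfl⟩
  · intro e he
    obtain ⟨i, _, rfl⟩ := Finset.mem_image.mp he
    exact hH _ ((SimpleGraph.mem_edgeSet H').mpr (hper i))
  · intro i j
    have h1 := Int.emod_nonneg i hm0.ne'
    have h2 := Int.emod_lt_of_pos i hm0
    have h1' := Int.emod_nonneg j hm0.ne'
    have h2' := Int.emod_lt_of_pos j hm0
    constructor
    · intro h
      have h4 := hinj (show (i % m).toNat ∈ {i | i ≤ m - 1} from by
          rw [Set.mem_ofPred_eq]; omega)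
        (show (j % m).toNat ∈ {i | i ≤ m - 1} from by rw [Set.mem_ofPred_eq]; omega) h
      have h5 : i % m = j % m := by omega
      exact (Int.ModEq.symm h5).dvd
    · intro h
      have h5 : j % m = i % m := Int.modEq_iff_dvd.mpr h
      show c.getVert (i % m).toNat = c.getVert (j % m).toNat
      rw [h5]

theorem p_ext : S_ext := by
  intro V _ G hG H hH hacy
  have hle : SimpleGraph.fromEdgeSet (H : Set (Sym2 V)) ≤ G := by
    intro a b hab
    rw [SimpleGraph.fromEdgeSet_adj] at hab
    exact (SimpleGraph.mem_edgeSet G).mp (hH _ hab.1)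
  have hac := ext_acyclic G (SimpleGraph.fromEdgeSet (H : Set (Sym2 V))) H hle (by
    intro e he
    rw [SimpleGraph.edgeSet_fromEdgeSet] at he
    exact he.1) hacy
  obtain ⟨T', h1, h2, h3⟩ := hG.exists_isTree_le_of_le_of_isAcyclic hle hac
  refine ⟨T'.edgeFinset, ⟨T', h2, h3, fun e => by rw [SimpleGraph.mem_edgeFinset]⟩, ?_, ?_⟩
  · intro e he
    rw [SimpleGraph.mem_edgeFinset]
    refine SimpleGraph.edgeSet_mono h1 ?_
    rw [SimpleGraph.edgeSet_fromEdgeSet]
    exact ⟨he, fun hd => G.not_isDiag_of_mem_edgeSet (hH e he) hd⟩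
  · intro D hD hcirc
    refine ext_not_acyclic G T' D hcirc (fun e he => ?_) h3.isAcyclic
    rw [← SimpleGraph.mem_edgeFinset]
    exact hD he

end Pool.Agent.Lib.MP_fce888_co.C48
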