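import Pool.Agent.Lib.MP_fce888_co.C48.Stm

set_option autoImplicit false

namespace Pool.Agent.Lib.MP_fce888_co.C48

open Finset Pool.Agent.Lib.MP_fce888_co
open scoped Classical

private lemma att_vs {V : Type} [Fintype V] {H : Finset (Sym2 V)} {e : Sym2 V} {v : V} (he : e ∈ H)
    (hv : v ∈ e) : v ∈ vs H := by
  unfold vs
  rw [mem_filter]
  exact ⟨mem_univ _, e, he, hv⟩

theorem p_att (h1 : S_cyc) (h2 : S_deg) : S_att := by
  intro V _ G H D m γ p q f hH hc hpq hqm harc hout hj
  obtain ⟨j, hqj, hjm, hf⟩ := hj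
  intro Z hZ hZc
  obtain ⟨c1, c2, c3, c4, c5, c6, c7, c8, c9⟩ := h1 V G D m γ hc
  have hfH : f ∉ H := by
    intro hfH
    have a1 : γ j ∈ vs H := att_vs hfH (by rw [hf]; exact Sym2.mem_mk_left _ _)
    have a2 : γ (j + 1) ∈ vs H := att_vs hfH (by rw [hf]; exact Sym2.mem_mk_right _ _)
    have b1 : ¬ q < j := fun hlt => hout j hlt hjm a1
    have b2 : ¬ j + 1 < p + m := fun hlt => hout (j + 1) (by omega) hlt a2
    apply hH D _ ⟨m, γ, hc⟩
    intro e he
    obtain ⟨i, hi1, hi2, rfl⟩ := c7 e he p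
    by_cases hiq : i < q
    · exact harc i hi1 hiq
    · have : i = j := by omega
      rw [this, ← hf]; exact hfH
  have hfZ : f ∉ Z := by
    intro hfZ
    rcases mem_union.1 (hZ hfZ) with h | h
    · exact hfH h
    · exact (mem_erase.1 h).1 rfl
  have hkey : ∀ i, q < i → i < p + m → ∀ e ∈ Z, γ i ∈ e →
      e = s(γ (i - 1), γ i) ∨ e = s(γ i, γ (i + 1)) := by
    intro i hi1 hi2 e he hie
    rcases mem_union.1 (hZ he) with h | h
    · exact absurd (att_vs h hie) (hout i hi1 hi2)
    · exact c9 e (mem_erase.1 h).2 i hie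
  have hup : ∀ i, q < i → i < p + m → s(γ (i - 1), γ i) ∉ Z → s(γ i, γ (i + 1)) ∉ Z := by
    intro i hi1 hi2 hn hin
    obtain ⟨e', he', hne, hv⟩ := h2 V G Z hZc _ hin (γ i) (Sym2.mem_mk_left _ _)
    rcases hkey i hi1 hi2 e' he' hv with h | h
    · rw [h] at he'; exact hn he'
    · exact hne h
  have hdn : ∀ i, q < i → i < p + m → s(γ i, γ (i + 1)) ∉ Z → s(γ (i - 1), γ i) ∉ Z := by
    intro i hi1 hi2 hn hin
    obtain ⟨e', he', hne, hv⟩ := h2 V G Z hZc _ hin (γ i) (Sym2.mem_mk_right _ _)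
    rcases hkey i hi1 hi2 e' he' hv with h | h
    · exact hne h
    · rw [h] at he'; exact hn he'
  have hU : ∀ n : ℕ, j + n < p + m → s(γ (j + n), γ (j + n + 1)) ∉ Z := by
    intro n
    induction n with
    | zero =>
      intro _
      have : j + ((0 : ℕ) : ℤ) = j := by simp
      rw [this, ← hf]; exact hfZ
    | succ n ih =>
      intro hlt
      have e1 : j + ((n + 1 : ℕ) : ℤ) = j + n + 1 := by push_cast; ring
      rw [e1] at hlt ⊢
      apply hup (j + n + 1) (by omega) hlt
      have e2 : j + (n : ℤ) + 1 - 1 = j + n := by ring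
      rw [e2]
      exact ih (by omega)
  have hD : ∀ n : ℕ, q ≤ j - n → s(γ (j - n), γ (j - n + 1)) ∉ Z := by
    intro n
    induction n with
    | zero =>
      intro _
      have : j - ((0 : ℕ) : ℤ) = j := by simp
      rw [this, ← hf]; exact hfZ
    | succ n ih =>
      intro hle
      have e1 : j - ((n + 1 : ℕ) : ℤ) = j - n - 1 := by push_cast; ring
      rw [e1] at hle ⊢
      have e2 : j - (n : ℤ) - 1 + 1 = j - n := by ring
      rw [e2]
      exact hdn (j - n) (by omega) (by omega) (ih (by omega))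
  apply hH Z _ hZc
  intro e he
  rcases mem_union.1 (hZ he) with h | h
  · exact h
  · obtain ⟨i, hi1, hi2, rfl⟩ := c7 e (mem_erase.1 h).2 p
    by_cases hiq : i < q
    · exact harc i hi1 hiq
    · exfalso
      rcases le_total j i with hji | hji
      · obtain ⟨n, hn⟩ := Int.eq_ofNat_of_zero_le (show 0 ≤ i - j by omega)
        have e3 : i = j + n := by omega
        rw [e3] at he hi2
        exact hU n hi2 he
      · obtain ⟨n, hn⟩ := Int.eq_ofNat_of_zero_le (show 0 ≤ j - i by omega)
        have e3 : i = j - n := by omega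
        rw [e3] at he
        exact hD n (by omega) he

end Pool.Agent.Lib.MP_fce888_co.C48
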