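import Pool.Agent.Lib.MP_fce888_co.C48.Stm

set_option autoImplicit false

/-! # MP_fce888_co, section 4.8, piece [bal] -/

namespace Pool.Agent.Lib.MP_fce888_co.C48

open Finset Pool.Agent.Lib.MP_fce888_co
open scoped Classical

theorem bal_dvd (m : ℕ) (x : ℤ) (h1 : 0 < x) (h2 : x < m) : ¬ (m : ℤ) ∣ x := by
  intro h
  have := Int.le_of_dvd h1 h
  omega

theorem p_bal (h1 : S_cyc) (h2 : S_pos) (h3 : S_att) : S_bal := by
  intro V _ G hG L r D H hD hH u hu ρ hρ hL hin hout f hf hfn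
  obtain ⟨m, γ, hcyc, hLm, h0, hdist, hwalk⟩ := h2 V G hG L r D hD u hu
  obtain ⟨c1, c2, c3, c4, c5, c6, c7, c8, c9⟩ := h1 V G D m γ hcyc
  refine h3 V G H D m γ (-(ρ : ℤ)) ρ f hH hcyc (by omega) (by omega) ?_ ?_ ?_
  · intro i hi1 hi2
    apply hin _ (c1 i)
    intro v hv
    rw [Sym2.mem_iff] at hv
    rcases hv with rfl | rfl
    · exact (hwalk i).trans (by omega)
    · exact (hwalk (i + 1)).trans (by omega)
  · intro i hi1 hi2 hmem
    have h4 : γ i ∈ vs D := (c4 _).2 ⟨i, rfl⟩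
    have h5 := hout _ h4 hmem
    rcases hdist i (h5.trans hρ) with h | h
    · exact bal_dvd m _ (by omega) (by omega) h
    · exact bal_dvd m _ (by omega) (by omega) h
  · obtain ⟨i, hi1, hi2, rfl⟩ := c7 f hf (-(ρ : ℤ))
    refine ⟨i, ?_, hi2, rfl⟩
    by_contra hlt
    push Not at hlt
    apply hfn
    intro v hv
    rw [Sym2.mem_iff] at hv
    rcases hv with rfl | rfl
    · exact (hwalk i).trans (by omega)
    · exact (hwalk (i + 1)).trans (by omega)

end Pool.Agent.Lib.MP_fce888_co.C48
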