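import Pool.Agent.Lib.MP_fce888_co.C48.Stm

set_option autoImplicit false

/-! [cnt] few edges of a good circuit are near a given vertex. -/

namespace Pool.Agent.Lib.MP_fce888_co.C48

open Finset Pool.Agent.Lib.MP_fce888_co
open scoped Classical

theorem p_cnt (h1 : S_cyc) (h2 : S_pos) : S_cnt := by
  intro V _ G hG L r D hD
  refine ⟨?_, ?_⟩
  · obtain ⟨m, γ, hc, hL, -, -⟩ := hD.cyc
    rw [(h1 V G D m γ hc).2.2.2.2.1]
    exact hL
  · intro u hu ρ hρ
    obtain ⟨m, γ, hc, hL, h0, hd, -⟩ := h2 V G hG L r D hD u hu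
    have hwin := (h1 V G D m γ hc).2.2.2.2.2.2.1
    have hsub : (D.filter fun e => ∀ v ∈ e, G.dist u v ≤ ρ) ⊆
        (Finset.Icc (-(ρ : ℤ)) ρ).image fun k : ℤ => s(γ k, γ (k + 1)) := by
      intro e he
      rw [Finset.mem_filter] at he
      obtain ⟨i, -, -, rfl⟩ := hwin e he.1 0
      have h3 : G.dist u (γ i) ≤ ρ := he.2 _ (Sym2.mem_mk_left _ _)
      have h4 : ∀ k : ℤ, (m : ℤ) ∣ i - k → s(γ k, γ (k + 1)) = s(γ i, γ (i + 1)) := by
        intro k hk
        have e1 : γ i = γ k := (hc.2.1 i k).mpr hk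
        have e2 : γ (i + 1) = γ (k + 1) := (hc.2.1 (i + 1) (k + 1)).mpr (by
          have : i + 1 - (k + 1) = i - k := by ring
          rw [this]
          exact hk)
        rw [e1, e2]
      rw [Finset.mem_image]
      rcases hd i (h3.trans hρ) with h5 | h5
      · refine ⟨(G.dist u (γ i) : ℤ), ?_, h4 _ h5⟩
        rw [Finset.mem_Icc]
        omega
      · refine ⟨-(G.dist u (γ i) : ℤ), ?_, h4 _ (by rwa [sub_neg_eq_add])⟩
        rw [Finset.mem_Icc]
        omega
    refine (Finset.card_le_card hsub).trans (Finset.card_image_le.trans ?_)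
    rw [Int.card_Icc]
    omega

end Pool.Agent.Lib.MP_fce888_co.C48
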