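import Pool.Agent.Lib.MP_fce888_co.C48.Stm

set_option autoImplicit false

namespace Pool.Agent.Lib.MP_fce888_co.C48

open Finset Pool.Agent.Lib.MP_fce888_co
open scoped Classical

theorem p_con : S_con := by
  intro V _ G Z κ R hZ hex heq
  obtain ⟨m, γ, hm, hper, hadj, hD⟩ := hZ
  -- every nonneg shift of an edge is in Z
  have hmem : ∀ i : ℕ, s(γ (i : ℤ), γ ((i : ℤ) + 1)) ∈ Z := by
    intro i
    rw [hD, mem_image]
    have hmpos : 0 < m := by omega
    have hdvd : (m : ℤ) ∣ (((i % m : ℕ) : ℤ)) - (i : ℤ) := by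
      have h1 : ((i % m : ℕ) : ℤ) = (i : ℤ) % (m : ℤ) := by norm_cast
      rw [h1]
      have h2 : (i : ℤ) % (m : ℤ) - i = - ((m : ℤ) * ((i : ℤ) / m)) := by
        have := Int.emod_add_mul_ediv (i : ℤ) (m : ℤ)
        linarith
      rw [h2]
      exact (dvd_neg.2 (dvd_mul_right _ _))
    refine ⟨i % m, mem_range.2 (Nat.mod_lt _ hmpos), ?_⟩
    have e1 : γ (((i % m : ℕ) : ℤ)) = γ (i : ℤ) := (hper _ _).2 hdvd
    have e2 : γ (((i % m : ℕ) : ℤ) + 1) = γ ((i : ℤ) + 1) := by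
      refine (hper _ _).2 ?_
      have : ((i % m : ℕ) : ℤ) + 1 - ((i : ℤ) + 1) = ((i % m : ℕ) : ℤ) - (i : ℤ) := by ring
      rw [this]
      exact hdvd
    rw [e1, e2]
  obtain ⟨c, hc⟩ := hex _ (hmem 0)
  have hall : ∀ i : ℕ, R s(γ (i : ℤ), γ ((i : ℤ) + 1)) c := by
    intro i
    induction i with
    | zero => exact hc
    | succ k ih =>
      obtain ⟨c', hc'⟩ := hex _ (hmem (k + 1))
      have hcc : c = c' := by
        refine heq _ (hmem k) _ (hmem (k + 1)) (γ ((k : ℤ) + 1)) ?_ ?_ c c' ih hc'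
        · simp
        · push_cast
          simp
      rw [hcc]
      exact hc'
  refine ⟨c, ?_⟩
  intro e he
  rw [hD, mem_image] at he
  obtain ⟨i, _, rfl⟩ := he
  exact hall i

end Pool.Agent.Lib.MP_fce888_co.C48
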