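import Pool.Agent.Lib.MP_fce888_co.C48.Stm

set_option autoImplicit false

namespace Pool.Agent.Lib.MP_fce888_co.C48

open Finset Pool.Agent.Lib.MP_fce888_co
open scoped Classical

private lemma cyc_img {α : Type} [DecidableEq α] (m : ℕ) (hm : 0 < m) (F : ℤ → α)
    (hF : ∀ i j : ℤ, (m : ℤ) ∣ i - j → F i = F j) (e : α) :
    e ∈ (range m).image (fun i : ℕ => F (i : ℤ)) ↔ ∃ i : ℤ, F i = e := by
  rw [mem_image]
  constructor
  · rintro ⟨i, _, h⟩
    exact ⟨i, h⟩
  · rintro ⟨i, h⟩
    have hm' : (0 : ℤ) < m := by exact_mod_cast hm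
    have h0 : 0 ≤ i % m := Int.emod_nonneg _ (by omega)
    have h1 : i % m < m := Int.emod_lt_of_pos _ hm'
    refine ⟨(i % m).toNat, ?_, ?_⟩
    · rw [mem_range]; omega
    · rw [← h]
      apply hF
      rw [Int.toNat_of_nonneg h0]
      have : i % m - i = - (m * (i / m)) := by
        have := Int.emod_add_mul_ediv i m
        linarith
      rw [this]
      exact (Dvd.intro _ rfl).neg_right

private lemma cyc_eper {V : Type} [Fintype V] {G : SimpleGraph V} {D : Finset (Sym2 V)} {m : ℕ}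
    {γ : ℤ → V} (h : IsCyc G D m γ) (i j : ℤ) (hd : (m : ℤ) ∣ i - j) :
    s(γ i, γ (i + 1)) = s(γ j, γ (j + 1)) := by
  have h1 : γ i = γ j := (h.2.1 i j).2 hd
  have h2 : γ (i + 1) = γ (j + 1) := (h.2.1 (i + 1) (j + 1)).2 (by
    have : i + 1 - (j + 1) = i - j := by ring
    rw [this]; exact hd)
  rw [h1, h2]

private lemma cyc_memD {V : Type} [Fintype V] {G : SimpleGraph V} {D : Finset (Sym2 V)} {m : ℕ}
    {γ : ℤ → V} (h : IsCyc G D m γ) (e : Sym2 V) :
    e ∈ D ↔ ∃ i : ℤ, s(γ i, γ (i + 1)) = e := by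
  have hm : 0 < m := by have := h.1; omega
  have := cyc_img m hm (fun i : ℤ => s(γ i, γ (i + 1))) (fun i j hd => cyc_eper h i j hd) e
  rw [← this, ← h.2.2.2]

private lemma cyc_mk {V : Type} [Fintype V] {G : SimpleGraph V} {D : Finset (Sym2 V)} {m : ℕ}
    {γ : ℤ → V} (hm : 3 ≤ m) (hp : ∀ i j : ℤ, γ i = γ j ↔ (m : ℤ) ∣ i - j)
    (ha : ∀ i : ℤ, G.Adj (γ i) (γ (i + 1)))
    (hD : ∀ e, e ∈ D ↔ ∃ i : ℤ, s(γ i, γ (i + 1)) = e) : IsCyc G D m γ := by
  refine ⟨hm, hp, ha, ?_⟩
  have hm' : 0 < m := by omega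
  ext e
  rw [hD]
  have := cyc_img m hm' (fun i : ℤ => s(γ i, γ (i + 1))) (fun i j hd => by
    have h1 : γ i = γ j := (hp i j).2 hd
    have h2 : γ (i + 1) = γ (j + 1) := (hp (i + 1) (j + 1)).2 (by
      have : i + 1 - (j + 1) = i - j := by ring
      rw [this]; exact hd)
    show s(γ i, γ (i + 1)) = s(γ j, γ (j + 1))
    rw [h1, h2]) e
  exact this.symm

private lemma cyc_inj {V : Type} [Fintype V] {G : SimpleGraph V} {D : Finset (Sym2 V)} {m : ℕ}
    {γ : ℤ → V} (h : IsCyc G D m γ) (i j : ℤ)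
    (he : s(γ i, γ (i + 1)) = s(γ j, γ (j + 1))) : (m : ℤ) ∣ i - j := by
  rw [Sym2.eq_iff] at he
  rcases he with ⟨h1, _⟩ | ⟨h1, h2⟩
  · exact (h.2.1 i j).1 h1
  · exfalso
    have a1 := (h.2.1 _ _).1 h1
    have a2 := (h.2.1 _ _).1 h2
    have h3 : (m : ℤ) ∣ (i + 1 - j) - (i - (j + 1)) := dvd_sub a2 a1
    have h4 : (i + 1 - j) - (i - (j + 1)) = 2 := by ring
    rw [h4] at h3
    have := Int.le_of_dvd (by norm_num) h3
    have := h.1
    omega

theorem p_cyc : S_cyc := by
  intro V _ G D m γ h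
  have hm : 3 ≤ m := h.1
  refine ⟨fun i => (cyc_memD h _).2 ⟨i, rfl⟩, ?_, ?_, ?_, ?_, ?_, ?_, ?_, ?_⟩
  · -- shift
    intro c
    refine cyc_mk hm ?_ ?_ ?_
    · intro i j
      rw [h.2.1]
      have : i + c - (j + c) = i - j := by ring
      rw [this]
    · intro i
      have := h.2.2.1 (i + c)
      have h2 : i + 1 + c = i + c + 1 := by ring
      show G.Adj (γ (i + c)) (γ (i + 1 + c))
      rw [h2]; exact this
    · intro e
      rw [cyc_memD h]
      constructor
      · rintro ⟨i, hi⟩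
        refine ⟨i - c, ?_⟩
        have h1 : i - c + c = i := by ring
        have h2 : i - c + 1 + c = i + 1 := by ring
        show s(γ (i - c + c), γ (i - c + 1 + c)) = e
        rw [h1, h2]; exact hi
      · rintro ⟨i, hi⟩
        refine ⟨i + c, ?_⟩
        have h2 : i + c + 1 = i + 1 + c := by ring
        rw [h2]; exact hi
  · -- reverse
    refine cyc_mk hm ?_ ?_ ?_
    · intro i j
      rw [h.2.1]
      have : -i - -j = -(i - j) := by ring
      rw [this, dvd_neg]
    · intro i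
      have := (h.2.2.1 (-(i + 1))).symm
      have h2 : -(i + 1) + 1 = -i := by ring
      rw [h2] at this
      exact this
    · intro e
      rw [cyc_memD h]
      constructor
      · rintro ⟨i, hi⟩
        refine ⟨-(i + 1), ?_⟩
        have h1 : - -(i + 1) = i + 1 := by ring
        have h2 : -(-(i + 1) + 1) = i := by ring
        show s(γ (- -(i + 1)), γ (-(-(i + 1) + 1))) = e
        rw [h1, h2, Sym2.eq_swap]; exact hi
      · rintro ⟨i, hi⟩
        refine ⟨-(i + 1), ?_⟩
        have h2 : -(i + 1) + 1 = -i := by ring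
        rw [h2, Sym2.eq_swap]; exact hi
  · -- vertices
    intro v
    unfold vs
    rw [mem_filter]
    constructor
    · rintro ⟨_, e, he, hv⟩
      obtain ⟨i, rfl⟩ := (cyc_memD h e).1 he
      rw [Sym2.mem_iff] at hv
      rcases hv with hv | hv
      · exact ⟨i, hv.symm⟩
      · exact ⟨i + 1, hv.symm⟩
    · rintro ⟨i, rfl⟩
      exact ⟨mem_univ _, s(γ i, γ (i + 1)), (cyc_memD h _).2 ⟨i, rfl⟩, Sym2.mem_mk_left _ _⟩
  · -- card
    rw [h.2.2.2, card_image_of_injOn, card_range]
    intro a ha b hb hab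
    have ha' : a < m := by simpa using ha
    have hb' : b < m := by simpa using hb
    have hd := cyc_inj h (a : ℤ) (b : ℤ) hab
    have := Int.eq_zero_of_abs_lt_dvd hd (by rw [abs_lt]; constructor <;> omega)
    omega
  · intro e he
    obtain ⟨i, rfl⟩ := (cyc_memD h e).1 he
    exact (SimpleGraph.mem_edgeSet _).2 (h.2.2.1 i)
  · intro e he p
    obtain ⟨j, rfl⟩ := (cyc_memD h e).1 he
    have hm' : (0 : ℤ) < m := by omega
    have h0 : 0 ≤ (j - p) % m := Int.emod_nonneg _ (by omega)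
    have h1 : (j - p) % m < m := Int.emod_lt_of_pos _ hm'
    refine ⟨p + (j - p) % m, by omega, by omega, ?_⟩
    apply cyc_eper h
    have : j - (p + (j - p) % m) = m * ((j - p) / m) := by
      have := Int.emod_add_mul_ediv (j - p) m
      linarith
    rw [this]
    exact Dvd.intro _ rfl
  · intro i j
    exact ⟨cyc_inj h i j, cyc_eper h i j⟩
  · intro e he i hi
    obtain ⟨j, rfl⟩ := (cyc_memD h e).1 he
    rw [Sym2.mem_iff] at hi
    rcases hi with hi | hi
    · right
      exact cyc_eper h j i (by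
        have := (h.2.1 _ _).1 hi
        have h2 : j - i = -(i - j) := by ring
        rw [h2, dvd_neg]; exact this)
    · left
      have h1 := (h.2.1 _ _).1 hi
      have h2 : j - (i - 1) = -(i - (j + 1)) := by ring
      have h3 := cyc_eper h j (i - 1) (by rw [h2, dvd_neg]; exact h1)
      have h4 : i - 1 + 1 = i := by ring
      rw [h4] at h3
      exact h3

end Pool.Agent.Lib.MP_fce888_co.C48
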