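import Pool.Agent.Lib.MP_fce888_co.C48.Stm

set_option autoImplicit false

namespace Pool.Agent.Lib.MP_fce888_co.C48

open Finset Pool.Agent.Lib.MP_fce888_co
open scoped Classical

theorem p_fnd : S_fnd := by
  intro V _ G T D f hT hD hf hsub
  have hfT : f ∉ T := by
    intro h
    refine hT D ?_ hD
    intro x hx
    by_cases hxf : x = f
    · rw [hxf]; exact h
    · exact hsub (mem_erase.2 ⟨hxf, hx⟩)
  refine ⟨?_, hfT⟩
  rw [card_eq_one]
  refine ⟨f, ?_⟩
  ext x
  simp only [mem_sdiff, mem_singleton]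
  constructor
  · rintro ⟨h1, h2⟩
    by_contra hxf
    exact h2 (hsub (mem_erase.2 ⟨hxf, h1⟩))
  · rintro rfl
    exact ⟨hf, hfT⟩

end Pool.Agent.Lib.MP_fce888_co.C48
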