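import Pool.Agent.Lib.MP_fce888_co.C48.Stm

set_option autoImplicit false

namespace Pool.Agent.Lib.MP_fce888_co.C48

open Finset Pool.Agent.Lib.MP_fce888_co
open scoped Classical

private lemma pos_walk {V : Type} {G : SimpleGraph V} (hG : G.Connected) {γ : ℤ → V}
    (ha : ∀ i : ℤ, G.Adj (γ i) (γ (i + 1))) (a : ℤ) (n : ℕ) : G.dist (γ a) (γ (a + n)) ≤ n := by
  induction n with
  | zero => simp
  | succ n ih =>
    have e1 : a + ((n + 1 : ℕ) : ℤ) = a + n + 1 := by push_cast; ring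
    rw [e1]
    have h1 := hG.dist_triangle (u := γ a) (v := γ (a + n)) (w := γ (a + n + 1))
    have h2 : G.dist (γ (a + n)) (γ (a + n + 1)) = 1 := SimpleGraph.dist_eq_one_iff_adj.2 (ha _)
    omega

theorem p_pos (h1 : S_cyc) : S_pos := by
  intro V _ G hG L r D hD u hu
  obtain ⟨m, γ', hc, hL, _, hNE⟩ := hD.cyc
  obtain ⟨_, c2, _, c4, _, _, _, _, _⟩ := h1 V G D m γ' hc
  obtain ⟨c, rfl⟩ := (c4 u).1 hu
  refine ⟨m, fun i => γ' (i + c), c2 c, hL, ?_, ?_, ?_⟩
  · show γ' (0 + c) = γ' c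
    rw [zero_add]
  · intro i hi
    have hi' : G.dist (γ' c) (γ' (i + c)) ≤ r := hi
    show (m : ℤ) ∣ i - (G.dist (γ' c) (γ' (i + c)) : ℤ) ∨
      (m : ℤ) ∣ i + (G.dist (γ' c) (γ' (i + c)) : ℤ)
    rcases hNE c (i + c) hi' with h | h
    · left
      have e1 : i + c - c = i := by ring
      rw [e1] at h
      exact h
    · right
      have e1 : c - (i + c) - (G.dist (γ' c) (γ' (i + c)) : ℤ)
          = -(i + (G.dist (γ' c) (γ' (i + c)) : ℤ)) := by ring
      rw [e1, dvd_neg] at h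
      exact h
  · intro i
    show G.dist (γ' c) (γ' (i + c)) ≤ i.natAbs
    rcases le_total 0 i with hi | hi
    · obtain ⟨n, rfl⟩ := Int.eq_ofNat_of_zero_le hi
      have := pos_walk hG hc.2.2.1 c n
      rw [add_comm] at this
      simpa using this
    · obtain ⟨n, hn⟩ := Int.eq_ofNat_of_zero_le (show 0 ≤ -i by omega)
      have := pos_walk hG hc.2.2.1 (i + c) n
      have e1 : i + c + n = c := by omega
      rw [e1, SimpleGraph.dist_comm] at this
      have e2 : i.natAbs = n := by omega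
      rw [e2]; exact this

end Pool.Agent.Lib.MP_fce888_co.C48
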