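import Pool.Agent.Lib.MP_fce888_co.C48.Stm

set_option autoImplicit false

/-!
# MP_fce888_co, section 4.8, piece `two`
-/

namespace Pool.Agent.Lib.MP_fce888_co.C48

open Finset
open scoped Classical
open Pool.Agent.Lib.MP_fce888_co

/-- a walk of length `d` between points at distance `d` is a geodesic -/
private theorem two_walk {V : Type} (G : SimpleGraph V) (hG : G.Connected) (a : ℕ → V)
    (d : ℕ) (ha : ∀ i < d, G.Adj (a i) (a (i + 1))) :
    ∀ i j : ℕ, i ≤ j → j ≤ d → G.dist (a i) (a j) ≤ j - i := by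
  intro i j hij
  induction j, hij using Nat.le_induction with
  | base => intro _; simp
  | succ k hk ih =>
    intro hkd
    have h1 := ih (by omega)
    have h2 : G.dist (a k) (a (k + 1)) = 1 := SimpleGraph.dist_eq_one_iff_adj.2 (ha k (by omega))
    have h3 := hG.dist_triangle (u := a i) (v := a k) (w := a (k + 1))
    omega

private theorem two_geo {V : Type} (G : SimpleGraph V) (hG : G.Connected) (a : ℕ → V)
    (d : ℕ) (ha : ∀ i < d, G.Adj (a i) (a (i + 1))) (hd : G.dist (a 0) (a d) = d) :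
    ∀ i ≤ d, G.dist (a 0) (a i) = i := by
  intro i hi
  have h1 := two_walk G hG a d ha 0 i (by omega) hi
  have h2 := two_walk G hG a d ha i d hi le_rfl
  have h3 := hG.dist_triangle (u := a 0) (v := a i) (w := a d)
  omega

/-- small multiples of `m` -/
private theorem two_zero {m x : ℤ} (h : m ∣ x) (h1 : -m < x) (h2 : x < m) : x = 0 := by
  rcases h with ⟨k, rfl⟩
  have hm : 0 < m := by
    by_contra hm
    have : m ≤ 0 := by omega
    omega
  have hk : k = 0 := by
    by_contra hk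
    rcases lt_or_gt_of_ne hk with h | h
    · have : m * k ≤ m * (-1) := mul_le_mul_of_nonneg_left (by omega) hm.le
      omega
    · have : m * 1 ≤ m * k := mul_le_mul_of_nonneg_left (by omega) hm.le
      omega
  rw [hk, mul_zero]

private theorem two_zero' {m x : ℤ} (h : m ∣ x) (h1 : -m < x) (h2 : x < 2 * m) : x = 0 ∨ x = m := by
  rcases lt_or_ge x m with h3 | h3
  · exact Or.inl (two_zero h h1 h3)
  · right
    have h4 : m ∣ x - m := dvd_sub h (dvd_refl m)
    have := two_zero h4 (by omega) (by omega)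
    omega

theorem p_two (h1 : S_cyc) (_h2 : S_pos) (h3 : S_bal) (h4 : S_att) (h5 : S_uni) : S_two := by
  intro V _ G hG L r D E H hD hE hH ρ hρr hρL f' hf'E hf'H hVD hdist f hf hfD
  by_cases hcase : ∃ u ∈ vs E, u ∈ vs H
  swap
  · -- no common vertex
    push Not at hcase
    obtain ⟨m, γ, hc, hLm, -, -⟩ := hE.cyc
    obtain ⟨c1, -, -, c4, -, -, c7, -, -⟩ := h1 V G E m γ hc
    obtain ⟨j, -, -, hj⟩ := c7 f hf 0
    have hu : γ j ∈ vs E := (c4 _).2 ⟨j, rfl⟩
    have hno : ∀ e ∈ E, ¬ ∀ v ∈ e, G.dist (γ j) v ≤ 0 := by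
      intro e he hall
      obtain ⟨i, -, -, hi⟩ := c7 e he 0
      have ha : γ j = γ i :=
        (hG.dist_eq_zero_iff).1 (Nat.le_zero.1 (hall (γ i) (by rw [hi]; exact Sym2.mem_mk_left _ _)))
      have hb : γ j = γ (i + 1) :=
        (hG.dist_eq_zero_iff).1 (Nat.le_zero.1 (hall (γ (i + 1)) (by rw [hi]; exact Sym2.mem_mk_right _ _)))
      exact (hc.2.2.1 i).ne (ha.symm.trans hb)
    exact h3 V G hG L r E H hE hH (γ j) hu 0 (Nat.zero_le _) (by omega)
      (fun e he hall => absurd hall (hno e he)) (fun v hv hv' => absurd hv' (hcase v hv)) f hf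
      (hno f hf)
  obtain ⟨u, huE, huH⟩ := hcase
  -- a parametrisation of `E` starting at `u`
  obtain ⟨m, γ0, hc0, hLm, -, hNE0⟩ := hE.cyc
  obtain ⟨-, d2, -, d4, -, -, -, -, -⟩ := h1 V G E m γ0 hc0
  obtain ⟨c, hcu⟩ := (d4 u).1 huE
  obtain ⟨γ, hγ⟩ : ∃ γ : ℤ → V, γ = fun i => γ0 (i + c) := ⟨_, rfl⟩
  have hc : IsCyc G E m γ := by rw [hγ]; exact d2 c
  have hγ0 : γ 0 = u := by rw [hγ]; simpa using hcu
  have hNE : ∀ i j : ℤ, G.dist (γ i) (γ j) ≤ r →
      (m : ℤ) ∣ (j - i) - (G.dist (γ i) (γ j) : ℤ) ∨ (m : ℤ) ∣ (i - j) - (G.dist (γ i) (γ j) : ℤ) := by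
    intro i j hij
    rw [hγ] at hij ⊢
    have := hNE0 (i + c) (j + c) hij
    simpa using this
  obtain ⟨c1, -, -, c4, -, -, c7, -, -⟩ := h1 V G E m γ hc
  have hγE : ∀ i, γ i ∈ vs E := fun i => (c4 _).2 ⟨i, rfl⟩
  have hγadj : ∀ i, G.Adj (γ i) (γ (i + 1)) := hc.2.2.1
  have hper : ∀ i j : ℤ, γ i = γ j ↔ (m : ℤ) ∣ i - j := hc.2.1
  have hmL : (L : ℤ) ≤ m := by exact_mod_cast hLm
  have hρL' : 4 * (ρ : ℤ) + 1 < L := by exact_mod_cast hρL
  -- the extreme positions
  obtain ⟨S, hS⟩ : ∃ S : Finset ℤ, S = (Finset.Icc (-(ρ : ℤ)) ρ).filter fun i => γ i ∈ vs H := ⟨_, rfl⟩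
  have hSmem : ∀ i, i ∈ S ↔ (-(ρ : ℤ) ≤ i ∧ i ≤ ρ) ∧ γ i ∈ vs H := by
    intro i; rw [hS, mem_filter, mem_Icc]
  have h0S : (0 : ℤ) ∈ S := by
    rw [hSmem]; refine ⟨⟨by omega, by omega⟩, ?_⟩
    rw [hγ0]; exact huH
  have hSne : S.Nonempty := ⟨0, h0S⟩
  obtain ⟨p, hp⟩ : ∃ p, p = S.min' hSne := ⟨_, rfl⟩
  obtain ⟨q, hq⟩ : ∃ q, q = S.max' hSne := ⟨_, rfl⟩
  have hpS : p ∈ S := by rw [hp]; exact S.min'_mem hSne
  have hqS : q ∈ S := by rw [hq]; exact S.max'_mem hSne
  have hpmin : ∀ i ∈ S, p ≤ i := fun i hi => by rw [hp]; exact S.min'_le i hi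
  have hqmax : ∀ i ∈ S, i ≤ q := fun i hi => by rw [hq]; exact S.le_max' i hi
  have hp0 : p ≤ 0 := hpmin 0 h0S
  have hq0 : 0 ≤ q := hqmax 0 h0S
  obtain ⟨⟨hp1, hp2⟩, hpH⟩ := (hSmem p).1 hpS
  obtain ⟨⟨hq1, hq2⟩, hqH⟩ := (hSmem q).1 hqS
  have hpq : p ≤ q := by omega
  have hqpm : q < p + m := by omega
  -- no other common vertex
  have hA : ∀ i, p ≤ i → i < p + m → γ i ∈ vs H → i ≤ q := by
    intro i hi1 hi2 hiH
    have hd : G.dist (γ 0) (γ i) ≤ ρ := hdist (γ 0) (hγE 0) (γ i) (hγE i) (by rw [hγ0]; exact huH) hiH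
    have hd' : ((G.dist (γ 0) (γ i) : ℕ) : ℤ) ≤ ρ := by exact_mod_cast hd
    have hd0 : (0 : ℤ) ≤ ((G.dist (γ 0) (γ i) : ℕ) : ℤ) := Int.natCast_nonneg _
    obtain ⟨d, hdd⟩ : ∃ d : ℤ, d = ((G.dist (γ 0) (γ i) : ℕ) : ℤ) := ⟨_, rfl⟩
    have hne := hNE 0 i (hd.trans hρr)
    rw [← hdd] at hne hd' hd0
    rcases hne with hne | hne
    · have : i - 0 - d = 0 := two_zero hne (by omega) (by omega)
      exact hqmax i ((hSmem i).2 ⟨⟨by omega, by omega⟩, hiH⟩)
    · have hne' : (m : ℤ) ∣ i + d := by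
        have := (dvd_neg (a := (m : ℤ)) (b := 0 - i - d)).2 hne
        have e : -(0 - i - d) = i + d := by ring
        rwa [e] at this
      rcases two_zero' hne' (by omega) (by omega) with h | h
      · exact hqmax i ((hSmem i).2 ⟨⟨by omega, by omega⟩, hiH⟩)
      · exfalso
        have e : γ (-d) = γ i := by
          rw [hper]
          have : -d - i = -(m : ℤ) := by omega
          rw [this]
          exact (dvd_neg).2 (dvd_refl _)
        have : -d ∈ S := (hSmem _).2 ⟨⟨by omega, by omega⟩, by rw [e]; exact hiH⟩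
        have := hpmin _ this
        omega
  -- the arc from `p` to `q`
  have hdpq : G.dist (γ p) (γ q) ≤ ρ := hdist _ (hγE p) _ (hγE q) hpH hqH
  obtain ⟨d, hdd⟩ : ∃ d : ℕ, d = G.dist (γ p) (γ q) := ⟨_, rfl⟩
  have hdρ : d ≤ ρ := by omega
  have hqp : q = p + d := by
    have hne := hNE p q (hdpq.trans hρr)
    rw [← hdd] at hne
    rcases hne with hne | hne
    · have := two_zero hne (by omega) (by omega)
      omega
    · have := two_zero hne (by omega) (by omega)
      omega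
  -- the same arc in `D`
  have hpD : γ p ∈ vs D := hVD _ (hγE p) hpH
  have hqD : γ q ∈ vs D := hVD _ (hγE q) hqH
  have hb : ∃ b : ℕ → V, b 0 = γ p ∧ b d = γ q ∧ (∀ i, G.Adj (b i) (b (i + 1))) ∧
      ∀ i, s(b i, b (i + 1)) ∈ D := by
    obtain ⟨m', δ, hcD, -, -, hNED⟩ := hD.cyc
    obtain ⟨e1, -, -, e4, -, -, -, -, -⟩ := h1 V G D m' δ hcD
    obtain ⟨s, hs⟩ := (e4 _).1 hpD
    obtain ⟨t, ht⟩ := (e4 _).1 hqD
    have hne := hNED s t (by rw [hs, ht, ← hdd]; omega)
    rw [hs, ht, ← hdd] at hne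
    rcases hne with hne | hne
    · refine ⟨fun i => δ (s + i), by simpa using hs, ?_, fun i => ?_, fun i => ?_⟩
      · rw [← ht]
        show δ (s + (d : ℤ)) = δ t
        rw [hcD.2.1]
        have := (dvd_neg (a := (m' : ℤ)) (b := t - s - d)).2 hne
        have e : -(t - s - (d : ℤ)) = s + d - t := by ring
        rwa [e] at this
      · have := hcD.2.2.1 (s + i)
        have e : s + ((i + 1 : ℕ) : ℤ) = s + i + 1 := by push_cast; ring
        simp only [e]
        exact this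
      · have := e1 (s + i)
        have e : s + ((i + 1 : ℕ) : ℤ) = s + i + 1 := by push_cast; ring
        simp only [e]
        exact this
    · refine ⟨fun i => δ (s - i), by simpa using hs, ?_, fun i => ?_, fun i => ?_⟩
      · rw [← ht]
        show δ (s - (d : ℤ)) = δ t
        rw [hcD.2.1]
        have e : s - (d : ℤ) - t = s - t - d := by ring
        rw [e]; exact hne
      · have := hcD.2.2.1 (s - i - 1)
        have e : s - ((i + 1 : ℕ) : ℤ) = s - i - 1 := by push_cast; ring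
        have e' : s - (i : ℤ) - 1 + 1 = s - i := by ring
        simp only [e]
        rw [e'] at this
        exact this.symm
      · have := e1 (s - i - 1)
        have e : s - ((i + 1 : ℕ) : ℤ) = s - i - 1 := by push_cast; ring
        have e' : s - (i : ℤ) - 1 + 1 = s - i := by ring
        simp only [e]
        rw [e'] at this
        rw [Sym2.eq_swap]
        exact this
  obtain ⟨b, hb0, hbd, hbadj, hbD⟩ := hb
  have haadj : ∀ i : ℕ, G.Adj (γ (p + (i : ℤ))) (γ (p + ((i + 1 : ℕ) : ℤ))) := by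
    intro i
    have := hγadj (p + i)
    have e : p + ((i + 1 : ℕ) : ℤ) = p + i + 1 := by push_cast; ring
    rw [e]; exact this
  have ha0 : γ (p + ((0 : ℕ) : ℤ)) = γ p := by simp
  have had : γ (p + (d : ℤ)) = γ q := by rw [hqp]
  have hgeoa := two_geo G hG (fun i : ℕ => γ (p + (i : ℤ))) d (fun i _ => haadj i)
    (by show G.dist (γ (p + ((0 : ℕ) : ℤ))) (γ (p + (d : ℤ))) = d; rw [ha0, had]; exact hdd.symm)
  have hgeob := two_geo G hG b d (fun i _ => hbadj i) (by rw [hb0, hbd]; exact hdd.symm)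
  have hab : ∀ i ≤ d, γ (p + (i : ℤ)) = b i := by
    apply h5 V G r (γ p) (hE.tb (γ p) (hγE p)) d (fun i : ℕ => γ (p + (i : ℤ))) b (by omega) ha0 hb0
      (by show γ (p + (d : ℤ)) = b d; rw [had, hbd]) (fun i _ => haadj i) (fun i _ => hbadj i)
    · intro i hi
      have := hgeoa i hi
      simp only [ha0] at this
      exact this
    · intro i hi
      have := hgeob i hi
      rwa [hb0] at this
  -- the arc lies in `D`
  have harc : ∀ i, p ≤ i → i < q → s(γ i, γ (i + 1)) ∈ D := by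
    intro i hi1 hi2
    obtain ⟨k, hk⟩ := Int.eq_ofNat_of_zero_le (show 0 ≤ i - p by omega)
    have hik : i = p + k := by omega
    have hkd : k < d := by omega
    have e1 := hab k hkd.le
    have e2 := hab (k + 1) hkd
    have e3 : i + 1 = p + ((k + 1 : ℕ) : ℤ) := by push_cast; omega
    rw [e3, hik, e1, e2]
    exact hbD k
  apply h4 V G H E m γ p q f hH hc hpq hqpm
  · intro i hi1 hi2
    apply hf'H
    rw [mem_erase]
    refine ⟨?_, harc i hi1 hi2⟩
    intro e
    exact hf'E (e ▸ c1 i)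
  · intro i hi1 hi2 hi3
    have := hA i (by omega) hi2 hi3
    omega
  · obtain ⟨j, hj1, hj2, hj3⟩ := c7 f hf p
    refine ⟨j, ?_, hj2, hj3⟩
    by_contra hjq
    apply hfD
    intro v hv
    have hin := harc j hj1 (by omega)
    rw [← hj3] at hin
    rw [vs, mem_filter]
    exact ⟨mem_univ _, f, hin, hv⟩

end Pool.Agent.Lib.MP_fce888_co.C48
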