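import Pool.Agent.Lib.MP_fce888_co.C48.Main
import Pool.Agent.Lib.MP_fce888_co.C48.P_att
import Pool.Agent.Lib.MP_fce888_co.C48.P_bal
import Pool.Agent.Lib.MP_fce888_co.C48.P_cnt
import Pool.Agent.Lib.MP_fce888_co.C48.P_con
import Pool.Agent.Lib.MP_fce888_co.C48.P_cyc
import Pool.Agent.Lib.MP_fce888_co.C48.P_ext
import Pool.Agent.Lib.MP_fce888_co.C48.P_fnd
import Pool.Agent.Lib.MP_fce888_co.C48.P_pos
import Pool.Agent.Lib.MP_fce888_co.C48.P_two
import Pool.Agent.Lib.MP_fce888_co.C48.P_uni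

set_option autoImplicit false

/-!
# MP_fce888_co, section 4.8: final theorem
-/

namespace Pool.Agent.Lib.MP_fce888_co.C48

open Finset
open scoped Classical
open Pool.Agent.Lib.MP_fce888_co

theorem fin_deg : S_deg := by
  intro V _ G Z hZ e he v hv
  obtain ⟨m, γ, hγ⟩ := hZ
  have hm : 3 ≤ m := hγ.1
  obtain ⟨c1, -, -, -, -, -, c7, c8, -⟩ := p_cyc V G Z m γ hγ
  obtain ⟨i, -, -, rfl⟩ := c7 e he 0
  rcases Sym2.mem_iff.1 hv with rfl | rfl
  · refine ⟨s(γ (i - 1), γ (i - 1 + 1)), c1 (i - 1), ?_, ?_⟩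
    · intro h
      have := (c8 (i - 1) i).1 h
      have h2 : (m : ℤ) ∣ 1 := by
        have h3 : (i - 1 - i : ℤ) = -1 := by ring
        rw [h3] at this
        exact (dvd_neg.1 this)
      have := Int.le_of_dvd (by norm_num) h2
      omega
    · rw [sub_add_cancel]; exact Sym2.mem_mk_right _ _
  · refine ⟨s(γ (i + 1), γ (i + 1 + 1)), c1 (i + 1), ?_, Sym2.mem_mk_left _ _⟩
    intro h
    have := (c8 (i + 1) i).1 h
    have h2 : (m : ℤ) ∣ 1 := by
      have h3 : (i + 1 - i : ℤ) = 1 := by ring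
      rwa [h3] at this
    have := Int.le_of_dvd (by norm_num) h2
    omega

theorem fin_pos : S_pos := p_pos p_cyc
theorem fin_att : S_att := p_att p_cyc fin_deg
theorem fin_cnt : S_cnt := p_cnt p_cyc fin_pos
theorem fin_bal : S_bal := p_bal p_cyc fin_pos fin_att
theorem fin_two : S_two := p_two p_cyc fin_pos fin_bal fin_att p_uni

/-- **4.8** -/
theorem tree : TreeStatement := p_tree p_cyc fin_cnt fin_bal fin_two p_ext p_fnd p_con

end Pool.Agent.Lib.MP_fce888_co.C48
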