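import Pool.Agent.Lib.MP_fce888_co.Iface

set_option autoImplicit false

/-!
# MP_fce888_co, section 4.8 (the tree): interface with 4.5, 4.6, 4.7

`TreeIn` collects everything that 4.8 needs.  `A`, `B` : indices of type A / type B (disjoint),
`D x` the chosen circuit, `z x` its centre (for `x ∈ A`), `cl x` its cluster, `st` the cluster `*`,
`P` the set of accepted planted circuits, `Θ = Q_i ∪ Q_j ∪ Q_k`, `e1 = e_i`, `e2 = e_k`.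
-/

namespace Pool.Agent.Lib.MP_fce888_co

open Finset
open scoped Classical

variable {V : Type} [Fintype V]

/-- the vertices of `Γ = Θ ∪ ⋃ D x` -/
noncomputable def vGam {ι : Type} (Θ : Finset (Sym2 V)) (AB : Finset ι) (D : ι → Finset (Sym2 V)) :
    Finset V := vs Θ ∪ AB.biUnion fun x => vs (D x)

/-- input of 4.8 -/
structure TreeIn (G : SimpleGraph V) (L r rho r3 r4 r5 : ℕ) (Θ : Finset (Sym2 V)) (e1 e2 : Sym2 V)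
    {ι κ : Type} (A B : Finset ι) (D : ι → Finset (Sym2 V)) (z : ι → V) (cl : ι → κ) (st : κ)
    (P : Finset (Finset (Sym2 V))) : Prop where
  th_edges : ∀ g ∈ Θ, g ∈ G.edgeSet
  th_acy : Acy G (Θ \ {e1, e2})
  th_nt : ∀ Z, IsCirc G Z → (∀ v ∈ vs Z, ∃ u ∈ vs Θ, G.dist u v ≤ r) → Z ⊆ Θ
  disj : Disjoint A B
  good : ∀ x ∈ A ∪ B, GoodCirc G L r (D x)
  z_mem : ∀ x ∈ A, z x ∈ vs (D x)
  e_notMem : ∀ x ∈ A, e1 ∉ D x ∧ e2 ∉ D x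
  /-- clusters different from `*` have diameter `≤ r5` (`r5` = `rho5`) -/
  cl_ne : ∀ x ∈ A, ∀ y ∈ A, cl x = cl y → cl x ≠ st → G.dist (z x) (z y) ≤ r5
  /-- the cluster `*` is near `Θ` -/
  cl_st : ∀ x ∈ A, cl x = st → ∃ u ∈ vs Θ, G.dist u (z x) ≤ r3 + r5
  K1 : ∀ x ∈ A, ∀ u ∈ vs (D x), ∀ w ∈ vs Θ, G.dist u w ≤ r4 → cl x = st ∧ G.dist u (z x) ≤ rho
  K2 : ∀ x ∈ A, ∀ y ∈ A, x ≠ y → ∀ u ∈ vs (D x), ∀ w ∈ vs (D y), G.dist u w ≤ r4 →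
    cl x = cl y ∧ G.dist u (z x) ≤ rho
  K3t : ∀ x ∈ B, ∀ u ∈ vs (D x), ∀ w ∈ vs Θ, r4 < G.dist u w
  K3d : ∀ x ∈ B, ∀ y ∈ A ∪ B, y ≠ x → ∀ u ∈ vs (D x), ∀ w ∈ vs (D y), r4 < G.dist u w
  /- planted circuits (4.7) -/
  P_good : ∀ E ∈ P, GoodCirc G L r E
  P_e : ∀ E ∈ P, e1 ∉ E ∧ e2 ∉ E
  P_disj : ∀ E ∈ P, ∀ E' ∈ P, E ≠ E' → Disjoint (vs E) (vs E')
  P_near : ∀ E ∈ P, ∀ u ∈ vs E, ∀ w ∈ vs E, u ∈ vGam Θ (A ∪ B) D → w ∈ vGam Θ (A ∪ B) D →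
    G.dist u w ≤ r4
  P_one : ∀ x ∈ A ∪ B, ∀ E ∈ P, ∀ E' ∈ P, ¬ Disjoint (vs E) (vs (D x)) →
    ¬ Disjoint (vs E') (vs (D x)) → E = E'

/-- the numerical conditions of 4.8 -/
structure TreeNum (L r rho r3 r4 r5 : ℕ) : Prop where
  r4_pos : 1 ≤ r4
  sum_le : r3 + r5 + rho + r4 ≤ r
  lt_L : 4 * (rho + r4) + 5 < L

/-- (4.8) the tree -/
def TreeStatement : Prop :=
  ∀ (V : Type) [Fintype V] (G : SimpleGraph V), G.Connected →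
  ∀ (L r rho r3 r4 r5 : ℕ), TreeNum L r rho r3 r4 r5 →
  ∀ (Θ : Finset (Sym2 V)) (e1 e2 : Sym2 V) (ι κ : Type) (A B : Finset ι) (D : ι → Finset (Sym2 V))
    (z : ι → V) (cl : ι → κ) (st : κ) (P : Finset (Finset (Sym2 V))),
    TreeIn G L r rho r3 r4 r5 Θ e1 e2 A B D z cl st P →
    ∃ T, IsSpT G T ∧ Θ \ {e1, e2} ⊆ T ∧ (∀ x ∈ A ∪ B, (D x \ T).card = 1) ∧
      (∀ E ∈ P, (E \ T).card = 1)

end Pool.Agent.Lib.MP_fce888_co
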