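import Pool.Agent.Lib.MP_fce888_co.C48.Stm

set_option autoImplicit false

/-!
# MP_fce888_co, section 4.8: assembly
-/

namespace Pool.Agent.Lib.MP_fce888_co.C48

open Finset
open scoped Classical
open Pool.Agent.Lib.MP_fce888_co

variable {V : Type} [Fintype V] {G : SimpleGraph V} {L r rho r3 r4 r5 : ℕ} {Θ : Finset (Sym2 V)}
  {e1 e2 : Sym2 V} {ι κ : Type} {A B : Finset ι} {D : ι → Finset (Sym2 V)} {z : ι → V} {cl : ι → κ}
  {st : κ} {P : Finset (Finset (Sym2 V))}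

theorem mn_mem_vs {E : Finset (Sym2 V)} {v : V} : v ∈ vs E ↔ ∃ e ∈ E, v ∈ e := by
  simp [vs]

theorem mn_vs_mono {E F : Finset (Sym2 V)} (h : E ⊆ F) : vs E ⊆ vs F := by
  intro v hv
  rw [mn_mem_vs] at hv ⊢
  obtain ⟨e, he, hv⟩ := hv
  exact ⟨e, h he, hv⟩

theorem mn_mem_vs_union {E F : Finset (Sym2 V)} {v : V} : v ∈ vs (E ∪ F) ↔ v ∈ vs E ∨ v ∈ vs F := by
  simp only [mn_mem_vs, Finset.mem_union]
  constructor
  · rintro ⟨e, he | he, hv⟩
    · exact Or.inl ⟨e, he, hv⟩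
    · exact Or.inr ⟨e, he, hv⟩
  · rintro (⟨e, he, hv⟩ | ⟨e, he, hv⟩)
    · exact ⟨e, Or.inl he, hv⟩
    · exact ⟨e, Or.inr he, hv⟩

theorem mn_mem_vGam {AB : Finset ι} {v : V} :
    v ∈ vGam Θ AB D ↔ v ∈ vs Θ ∨ ∃ x ∈ AB, v ∈ vs (D x) := by
  simp [vGam]

/-- the edges of `E` with both ends within `ρ` of `u` -/
noncomputable def nb (G : SimpleGraph V) (E : Finset (Sym2 V)) (u : V) (ρ : ℕ) : Finset (Sym2 V) :=
  E.filter fun e => ∀ v ∈ e, G.dist u v ≤ ρ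

/-- type I planted circuits -/
def TI (Θ : Finset (Sym2 V)) (AB : Finset ι) (D : ι → Finset (Sym2 V)) (E : Finset (Sym2 V)) : Prop :=
  (∀ v ∈ vs E, v ∉ vGam Θ AB D) ∨ ∃ x ∈ AB, ∀ v ∈ vs E, v ∈ vGam Θ AB D → v ∈ vs (D x)

/-- type II planted circuits have a cluster -/
theorem mn_typeII (h : TreeIn G L r rho r3 r4 r5 Θ e1 e2 A B D z cl st P) {E : Finset (Sym2 V)}
    (hE : E ∈ P) (hT : ¬ TI Θ (A ∪ B) D E) :
    ∃ (u : V) (c : κ), u ∈ vs E ∧ u ∈ vGam Θ (A ∪ B) D ∧ (∀ v ∈ vs E, v ∈ vs Θ → c = st) ∧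
      (∀ x ∈ A ∪ B, ∀ v ∈ vs E, v ∈ vs (D x) → x ∈ A ∧ cl x = c ∧ G.dist v (z x) ≤ rho) := by
  have hT1 : ∃ v ∈ vs E, v ∈ vGam Θ (A ∪ B) D := by
    by_contra hc
    push Not at hc
    exact hT (Or.inl hc)
  have hT2 : ∀ x ∈ A ∪ B, ∃ w ∈ vs E, w ∈ vGam Θ (A ∪ B) D ∧ w ∉ vs (D x) := by
    intro x hx
    by_contra hc
    push Not at hc
    exact hT (Or.inr ⟨x, hx, hc⟩)
  have hmem : ∀ x ∈ A ∪ B, ∀ v, v ∈ vs (D x) → v ∈ vGam Θ (A ∪ B) D :=
    fun x hx v hv => mn_mem_vGam.2 (Or.inr ⟨x, hx, hv⟩)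
  have hQ : ∀ x ∈ A ∪ B, ∀ v ∈ vs E, v ∈ vs (D x) → x ∈ A ∧ G.dist v (z x) ≤ rho := by
    intro x hx v hv hvx
    obtain ⟨w, hw, hwG, hwx⟩ := hT2 x hx
    have hvw : G.dist v w ≤ r4 := h.P_near E hE v hv w hw (hmem x hx v hvx) hwG
    rcases mn_mem_vGam.1 hwG with hwT | ⟨y, hy, hwy⟩
    · rcases Finset.mem_union.1 hx with hxA | hxB
      · exact ⟨hxA, (h.K1 x hxA v hvx w hwT hvw).2⟩
      · exact absurd hvw (not_le.2 (h.K3t x hxB v hvx w hwT))
    · have hyx : y ≠ x := by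
        rintro rfl
        exact hwx hwy
      rcases Finset.mem_union.1 hx with hxA | hxB
      · rcases Finset.mem_union.1 hy with hyA | hyB
        · exact ⟨hxA, (h.K2 x hxA y hyA (Ne.symm hyx) v hvx w hwy hvw).2⟩
        · have := h.K3d y hyB x hx (Ne.symm hyx) w hwy v hvx
          rw [SimpleGraph.dist_comm] at this
          exact absurd hvw (not_le.2 this)
      · exact absurd hvw (not_le.2 (h.K3d x hxB y hy hyx v hvx w hwy))
  obtain ⟨u, hu, huG⟩ := hT1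
  by_cases hth : ∃ v ∈ vs E, v ∈ vs Θ
  · obtain ⟨v0, hv0, hv0T⟩ := hth
    refine ⟨u, st, hu, huG, fun _ _ _ => rfl, fun x hx v hv hvx => ?_⟩
    obtain ⟨hxA, hd⟩ := hQ x hx v hv hvx
    have hvw : G.dist v v0 ≤ r4 :=
      h.P_near E hE v hv v0 hv0 (hmem x hx v hvx) (mn_mem_vGam.2 (Or.inl hv0T))
    exact ⟨hxA, (h.K1 x hxA v hvx v0 hv0T hvw).1, hd⟩
  · push Not at hth
    rcases mn_mem_vGam.1 huG with huT | ⟨x0, hx0, hux0⟩
    · exact absurd huT (hth u hu)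
    · obtain ⟨hx0A, -⟩ := hQ x0 hx0 u hu hux0
      refine ⟨u, cl x0, hu, huG, fun v hv hvT => absurd hvT (hth v hv), fun x hx v hv hvx => ?_⟩
      obtain ⟨hxA, hd⟩ := hQ x hx v hv hvx
      refine ⟨hxA, ?_, hd⟩
      by_cases hxx : x = x0
      · rw [hxx]
      · have hvw : G.dist v u ≤ r4 := h.P_near E hE v hv u hu (hmem x hx v hvx) huG
        exact (h.K2 x hxA x0 hx0A hxx v hvx u hux0 hvw).1

/-- data of the type II planted circuits -/
structure IsII (G : SimpleGraph V) (rho : ℕ) (Θ : Finset (Sym2 V)) (A B : Finset ι)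
    (D : ι → Finset (Sym2 V)) (z : ι → V) (cl : ι → κ) (st : κ) (E : Finset (Sym2 V)) (u : V) (c : κ) :
    Prop where
  mem : u ∈ vs E
  memG : u ∈ vGam Θ (A ∪ B) D
  th : ∀ v ∈ vs E, v ∈ vs Θ → c = st
  dx : ∀ x ∈ A ∪ B, ∀ v ∈ vs E, v ∈ vs (D x) → x ∈ A ∧ cl x = c ∧ G.dist v (z x) ≤ rho

/-- `H_a` -/
noncomputable def Ha (G : SimpleGraph V) (rho r4 : ℕ) (Θ : Finset (Sym2 V)) (e1 e2 : Sym2 V)
    (A : Finset ι) (D : ι → Finset (Sym2 V)) (z : ι → V) (P2 : Finset (Finset (Sym2 V)))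
    (uE : Finset (Sym2 V) → V) : Finset (Sym2 V) :=
  (Θ \ {e1, e2}) ∪ (A.biUnion fun x => nb G (D x) (z x) rho) ∪ P2.biUnion fun E => nb G E (uE E) r4

theorem mn_mem_nb {E : Finset (Sym2 V)} {u : V} {ρ : ℕ} {e : Sym2 V} :
    e ∈ nb G E u ρ ↔ e ∈ E ∧ ∀ v ∈ e, G.dist u v ≤ ρ := by
  simp [nb]

theorem mn_vs_nb {E : Finset (Sym2 V)} {u : V} {ρ : ℕ} {v : V} (h : v ∈ vs (nb G E u ρ)) :
    v ∈ vs E ∧ G.dist u v ≤ ρ := by
  obtain ⟨e, he, hv⟩ := mn_mem_vs.1 h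
  obtain ⟨he1, he2⟩ := mn_mem_nb.1 he
  exact ⟨mn_mem_vs.2 ⟨e, he1, hv⟩, he2 v hv⟩

/-- step (a) -/
theorem mn_a (hcon : S_con) (hG : G.Connected) (hn : TreeNum L r rho r3 r4 r5)
    (h : TreeIn G L r rho r3 r4 r5 Θ e1 e2 A B D z cl st P)
    (P2 : Finset (Finset (Sym2 V))) (hP2 : P2 ⊆ P) (uE : Finset (Sym2 V) → V)
    (cE : Finset (Sym2 V) → κ) (hII : ∀ E ∈ P2, IsII G rho Θ A B D z cl st E (uE E) (cE E)) :
    Acy G (Ha G rho r4 Θ e1 e2 A D z P2 uE) := by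
  intro Z hZ hZc
  let R : Sym2 V → κ → Prop := fun e c =>
    (e ∈ Θ \ {e1, e2} ∧ c = st) ∨ (∃ x ∈ A, e ∈ nb G (D x) (z x) rho ∧ c = cl x) ∨
      (∃ E ∈ P2, e ∈ nb G E (uE E) r4 ∧ c = cE E)
  have hR : ∀ e c, R e c ↔ ((e ∈ Θ \ {e1, e2} ∧ c = st) ∨
      (∃ x ∈ A, e ∈ nb G (D x) (z x) rho ∧ c = cl x) ∨
      (∃ E ∈ P2, e ∈ nb G E (uE E) r4 ∧ c = cE E)) := fun _ _ => Iff.rfl
  have h1 : ∀ e ∈ Z, ∃ c, R e c := by
    intro e he
    have := hZ he
    simp only [Ha, Finset.mem_union, Finset.mem_biUnion] at this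
    rcases this with (h1 | ⟨x, hx, h2⟩) | ⟨E, hE, h3⟩
    · exact ⟨st, Or.inl ⟨h1, rfl⟩⟩
    · exact ⟨cl x, Or.inr (Or.inl ⟨x, hx, h2, rfl⟩)⟩
    · exact ⟨cE E, Or.inr (Or.inr ⟨E, hE, h3, rfl⟩)⟩
  have hself : ∀ v : V, G.dist v v = 0 := fun v => SimpleGraph.dist_self
  have h2 : ∀ e ∈ Z, ∀ e' ∈ Z, ∀ v, v ∈ e → v ∈ e' → ∀ c c', R e c → R e' c' → c = c' := by
    intro e _ e' _ v hv hv' c c' hc hc'
    -- the three cross cases
    have c12 : ∀ (f f' : Sym2 V) (x : ι), v ∈ f → v ∈ f' → f ∈ Θ \ {e1, e2} → x ∈ A →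
        f' ∈ nb G (D x) (z x) rho → cl x = st := by
      intro f f' x hf hf' h1 hx h2
      refine (h.K1 x hx v (mn_mem_vs.2 ⟨f', (mn_mem_nb.1 h2).1, hf'⟩) v
        (mn_mem_vs.2 ⟨f, (Finset.mem_sdiff.1 h1).1, hf⟩) ?_).1
      rw [hself]; exact Nat.zero_le _
    have c13 : ∀ (f f' : Sym2 V) (E : Finset (Sym2 V)), v ∈ f → v ∈ f' → f ∈ Θ \ {e1, e2} → E ∈ P2 →
        f' ∈ nb G E (uE E) r4 → cE E = st := by
      intro f f' E hf hf' h1 hE h2
      exact (hII E hE).th v (mn_mem_vs.2 ⟨f', (mn_mem_nb.1 h2).1, hf'⟩)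
        (mn_mem_vs.2 ⟨f, (Finset.mem_sdiff.1 h1).1, hf⟩)
    have c23 : ∀ (f f' : Sym2 V) (x : ι) (E : Finset (Sym2 V)), v ∈ f → v ∈ f' → x ∈ A →
        f ∈ nb G (D x) (z x) rho → E ∈ P2 → f' ∈ nb G E (uE E) r4 → cl x = cE E := by
      intro f f' x E hf hf' hx h1 hE h2
      exact ((hII E hE).dx x (Finset.mem_union_left _ hx) v
        (mn_mem_vs.2 ⟨f', (mn_mem_nb.1 h2).1, hf'⟩) (mn_mem_vs.2 ⟨f, (mn_mem_nb.1 h1).1, hf⟩)).2.1
    rcases hc with ⟨g1, hc⟩ | ⟨x, hx, g1, hc⟩ | ⟨E, hE, g1, hc⟩ <;>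
    rcases hc' with ⟨g2, hc'⟩ | ⟨x', hx', g2, hc'⟩ | ⟨E', hE', g2, hc'⟩ <;> rw [hc, hc']
    · exact (c12 e e' x' hv hv' g1 hx' g2).symm
    · exact (c13 e e' E' hv hv' g1 hE' g2).symm
    · exact c12 e' e x hv' hv g2 hx g1
    · by_cases hxx : x = x'
      · rw [hxx]
      · refine (h.K2 x hx x' hx' hxx v (mn_mem_vs.2 ⟨e, (mn_mem_nb.1 g1).1, hv⟩) v
          (mn_mem_vs.2 ⟨e', (mn_mem_nb.1 g2).1, hv'⟩) ?_).1
        rw [hself]; exact Nat.zero_le _
    · exact c23 e e' x E' hv hv' hx g1 hE' g2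
    · exact c13 e' e E hv' hv g2 hE g1
    · exact (c23 e' e x' E hv' hv hx' g2 hE g1).symm
    · by_cases hEE : E = E'
      · rw [hEE]
      · exfalso
        have := h.P_disj E (hP2 hE) E' (hP2 hE') hEE
        exact (Finset.disjoint_left.1 this) (mn_mem_vs.2 ⟨e, (mn_mem_nb.1 g1).1, hv⟩)
          (mn_mem_vs.2 ⟨e', (mn_mem_nb.1 g2).1, hv'⟩)
  obtain ⟨c, hc⟩ := hcon V G Z κ R hZc h1 h2
  -- distances
  have tri : ∀ a b c : V, G.dist a c ≤ G.dist a b + G.dist b c := fun a b c => hG.dist_triangle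
  have hsum := hn.sum_le
  by_cases hcs : c = st
  · -- the cluster `*`
    subst hcs
    have hZT : Z ⊆ Θ := by
      apply h.th_nt Z hZc
      intro v hv
      obtain ⟨e, he, hve⟩ := mn_mem_vs.1 hv
      rcases (hR e c).1 (hc e he) with ⟨h1, -⟩ | ⟨x, hx, h1, hcx⟩ | ⟨E, hE, h1, hcE⟩
      · refine ⟨v, mn_mem_vs.2 ⟨e, (Finset.mem_sdiff.1 h1).1, hve⟩, ?_⟩
        rw [hself]; exact Nat.zero_le _
      · obtain ⟨u, hu, hd⟩ := h.cl_st x hx hcx.symm
        refine ⟨u, hu, ?_⟩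
        have := (mn_mem_nb.1 h1).2 v hve
        have := tri u (z x) v
        omega
      · have hd := (mn_mem_nb.1 h1).2 v hve
        rcases mn_mem_vGam.1 (hII E hE).memG with hT | ⟨x, hx, hux⟩
        · exact ⟨uE E, hT, by omega⟩
        · obtain ⟨hxA, hcx, hdx⟩ := (hII E hE).dx x hx (uE E) (hII E hE).mem hux
          obtain ⟨u, hu, hdu⟩ := h.cl_st x hxA (hcx.trans hcE.symm)
          refine ⟨u, hu, ?_⟩
          have t1 := tri u (z x) v
          have t2 := tri (z x) (uE E) v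
          rw [SimpleGraph.dist_comm] at hdx
          omega
    apply h.th_acy Z ?_ hZc
    intro e he
    rw [Finset.mem_sdiff]
    refine ⟨hZT he, ?_⟩
    rcases (hR e c).1 (hc e he) with ⟨h1, -⟩ | ⟨x, hx, h1, hcx⟩ | ⟨E, hE, h1, hcE⟩
    · exact (Finset.mem_sdiff.1 h1).2
    · have h3 := h.e_notMem x hx
      have h4 := (mn_mem_nb.1 h1).1
      simp only [Finset.mem_insert, Finset.mem_singleton, not_or]
      exact ⟨fun h5 => h3.1 (h5 ▸ h4), fun h5 => h3.2 (h5 ▸ h4)⟩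
    · have h3 := h.P_e E (hP2 hE)
      have h4 := (mn_mem_nb.1 h1).1
      simp only [Finset.mem_insert, Finset.mem_singleton, not_or]
      exact ⟨fun h5 => h3.1 (h5 ▸ h4), fun h5 => h3.2 (h5 ▸ h4)⟩
  · -- another cluster: find `x0` with `cl x0 = c`
    have hloc : ∀ e ∈ Z, ∀ v ∈ e, ∃ x ∈ A, cl x = c ∧ G.dist (z x) v ≤ rho + r4 := by
      intro e he v hve
      rcases (hR e c).1 (hc e he) with ⟨h1, h2⟩ | ⟨x, hx, h1, hcx⟩ | ⟨E, hE, h1, hcE⟩
      · exact absurd h2 hcs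
      · exact ⟨x, hx, hcx.symm, ((mn_mem_nb.1 h1).2 v hve).trans (by omega)⟩
      · have hd := (mn_mem_nb.1 h1).2 v hve
        rcases mn_mem_vGam.1 (hII E hE).memG with hT | ⟨x, hx, hux⟩
        · exact absurd (hcE.trans ((hII E hE).th _ (hII E hE).mem hT)) hcs
        · obtain ⟨hxA, hcx, hdx⟩ := (hII E hE).dx x hx (uE E) (hII E hE).mem hux
          refine ⟨x, hxA, hcx.trans hcE.symm, ?_⟩
          have t2 := tri (z x) (uE E) v
          rw [SimpleGraph.dist_comm] at hdx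
          omega
    obtain ⟨m, γ, hm3, hγ1, hγ2, hZeq⟩ := hZc
    have he0 : s(γ 0, γ 1) ∈ Z := by
      rw [hZeq, Finset.mem_image]
      exact ⟨0, Finset.mem_range.2 (by omega), by simp⟩
    obtain ⟨x0, hx0, hcx0, -⟩ := hloc _ he0 (γ 0) (Sym2.mem_mk_left _ _)
    refine (h.good x0 (Finset.mem_union_left _ hx0)).tb (z x0) (h.z_mem x0 hx0) Z
      ⟨m, γ, hm3, hγ1, hγ2, hZeq⟩ ?_
    intro v hv
    obtain ⟨e, he, hve⟩ := mn_mem_vs.1 hv
    obtain ⟨x, hx, hcx, hd⟩ := hloc e he v hve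
    have h5 : G.dist (z x0) (z x) ≤ r5 :=
      h.cl_ne x0 hx0 x hx (hcx0.trans hcx.symm) (by rw [hcx0]; exact hcs)
    have := tri (z x0) (z x) v
    omega


theorem mn_exists_mem (e : Sym2 V) : ∃ v, v ∈ e := by
  induction e with
  | _ a b => exact ⟨a, Sym2.mem_mk_left a b⟩

theorem mn_vs_biUnion {α : Type} {S : Finset α} {g : α → Finset (Sym2 V)} {v : V} :
    v ∈ vs (S.biUnion g) ↔ ∃ a ∈ S, v ∈ vs (g a) := by
  simp only [mn_mem_vs, Finset.mem_biUnion]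
  constructor
  · rintro ⟨e, ⟨a, ha, he⟩, hv⟩
    exact ⟨a, ha, e, he, hv⟩
  · rintro ⟨a, ha, e, he, hv⟩
    exact ⟨e, ⟨a, ha, he⟩, hv⟩

theorem mn_iter {α : Type} (S : Finset α) (H0 : Finset (Sym2 V)) (g : α → Finset (Sym2 V))
    (h0 : Acy G H0)
    (step : ∀ a ∈ S, ∀ S' ⊆ S, a ∉ S' → Acy G (H0 ∪ S'.biUnion g) →
      Acy G (H0 ∪ S'.biUnion g ∪ g a)) : Acy G (H0 ∪ S.biUnion g) := by
  have key : ∀ S' : Finset α, S' ⊆ S → Acy G (H0 ∪ S'.biUnion g) := by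
    intro S'
    induction S' using Finset.induction_on with
    | empty => intro _; simpa using h0
    | insert a S' ha ih =>
      intro hS
      have h1 := ih ((Finset.subset_insert a S').trans hS)
      have h2 := step a (hS (Finset.mem_insert_self a S')) S' ((Finset.subset_insert a S').trans hS)
        ha h1
      have h3 : H0 ∪ (insert a S').biUnion g = H0 ∪ S'.biUnion g ∪ g a := by
        rw [Finset.biUnion_insert, Finset.union_assoc, Finset.union_comm (g a)]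
      rw [h3]; exact h2
  exact key S (Finset.Subset.refl S)

theorem mn_edge (hcyc : S_cyc) {E : Finset (Sym2 V)} (hE : GoodCirc G L r E) :
    ∀ e ∈ E, e ∈ G.edgeSet := by
  obtain ⟨m, γ, hγ, -⟩ := hE.cyc
  exact (hcyc V G E m γ hγ).2.2.2.2.2.1

/-- an edge is not within distance 0 of a vertex -/
theorem mn_not0 (hG : G.Connected) {e : Sym2 V} (he : e ∈ G.edgeSet) (u : V) :
    ¬ ∀ v ∈ e, G.dist u v ≤ 0 := by
  induction e with
  | _ a b =>
    intro h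
    have h1 := h a (Sym2.mem_mk_left a b)
    have h2 := h b (Sym2.mem_mk_right a b)
    have h3 : u = a := hG.dist_eq_zero_iff.1 (Nat.le_zero.1 h1)
    have h4 : u = b := hG.dist_eq_zero_iff.1 (Nat.le_zero.1 h2)
    rw [SimpleGraph.mem_edgeSet] at he
    exact he.ne (h3.symm.trans h4)

theorem mn_att0 (hcyc : S_cyc) (hbal : S_bal) (hG : G.Connected) (hL : 0 < L)
    {E H : Finset (Sym2 V)} (hE : GoodCirc G L r E) (hH : Acy G H) (hd : ∀ v ∈ vs E, v ∉ vs H)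
    {f : Sym2 V} (hf : f ∈ E) : Acy G (H ∪ E.erase f) := by
  obtain ⟨u, hu⟩ := mn_exists_mem f
  have huE : u ∈ vs E := mn_mem_vs.2 ⟨f, hf, hu⟩
  refine hbal V G hG L r E H hE hH u huE 0 (Nat.zero_le _) (by omega) ?_ ?_ f hf ?_
  · intro e he h0
    exact absurd h0 (mn_not0 hG (mn_edge hcyc hE e he) u)
  · intro v hv hvH
    exact absurd hvH (hd v hv)
  · exact mn_not0 hG (mn_edge hcyc hE f hf) u

/-- choice of `f_x` -/
theorem mn_fx (hcnt : S_cnt) (hG : G.Connected) (hn : TreeNum L r rho r3 r4 r5)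
    (h : TreeIn G L r rho r3 r4 r5 Θ e1 e2 A B D z cl st P) {x : ι} (hx : x ∈ A ∪ B) :
    ∃ f ∈ D x, (x ∈ A → ¬ ∀ v ∈ f, G.dist (z x) v ≤ rho) ∧ ∀ E ∈ P, f ∉ E := by
  obtain ⟨hcard, hc⟩ := hcnt V G hG L r (D x) (h.good x hx)
  have hsum := hn.sum_le
  have hL := hn.lt_L
  set B1 : Finset (Sym2 V) := (D x).filter fun e => x ∈ A ∧ ∀ v ∈ e, G.dist (z x) v ≤ rho with hB1
  set B2 : Finset (Sym2 V) := (D x).filter fun e => ∃ E ∈ P, e ∈ E with hB2
  have h1 : B1.card ≤ 2 * rho + 1 := by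
    by_cases hxA : x ∈ A
    · refine le_trans (Finset.card_le_card ?_) (hc (z x) (h.z_mem x hxA) rho (by omega))
      intro e he
      rw [hB1, Finset.mem_filter] at he
      rw [Finset.mem_filter]
      exact ⟨he.1, he.2.2⟩
    · have : B1 = ∅ := by
        rw [hB1, Finset.filter_eq_empty_iff]
        intro e _ he
        exact hxA he.1
      rw [this]; simp
  have h2 : B2.card ≤ 2 * r4 + 1 := by
    by_cases hne : B2.Nonempty
    · obtain ⟨e0, he0⟩ := hne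
      rw [hB2, Finset.mem_filter] at he0
      obtain ⟨he0D, E0, hE0, he0E⟩ := he0
      obtain ⟨u0, hu0⟩ := mn_exists_mem e0
      have hu0D : u0 ∈ vs (D x) := mn_mem_vs.2 ⟨e0, he0D, hu0⟩
      have hu0E : u0 ∈ vs E0 := mn_mem_vs.2 ⟨e0, he0E, hu0⟩
      refine le_trans (Finset.card_le_card ?_) (hc u0 hu0D r4 (by omega))
      intro e he
      rw [hB2, Finset.mem_filter] at he
      obtain ⟨heD, E, hE, heE⟩ := he
      rw [Finset.mem_filter]
      refine ⟨heD, fun v hv => ?_⟩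
      have hvD : v ∈ vs (D x) := mn_mem_vs.2 ⟨e, heD, hv⟩
      have hvE : v ∈ vs E := mn_mem_vs.2 ⟨e, heE, hv⟩
      have hEE : E = E0 := h.P_one x hx E hE E0 hE0
        (Finset.not_disjoint_iff.2 ⟨v, hvE, hvD⟩) (Finset.not_disjoint_iff.2 ⟨u0, hu0E, hu0D⟩)
      subst hEE
      exact h.P_near E hE u0 hu0E v hvE (mn_mem_vGam.2 (Or.inr ⟨x, hx, hu0D⟩))
        (mn_mem_vGam.2 (Or.inr ⟨x, hx, hvD⟩))
    · rw [Finset.not_nonempty_iff_eq_empty] at hne
      rw [hne]; simp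
  have h3 : (B1 ∪ B2).card < (D x).card := by
    have := Finset.card_union_le B1 B2
    omega
  obtain ⟨f, hf, hf'⟩ := Finset.exists_mem_notMem_of_card_lt_card h3
  rw [Finset.mem_union, not_or] at hf'
  refine ⟨f, hf, fun hxA hall => hf'.1 ?_, fun E hE hfE => hf'.2 ?_⟩
  · rw [hB1, Finset.mem_filter]; exact ⟨hf, hxA, hall⟩
  · rw [hB2, Finset.mem_filter]; exact ⟨hf, E, hE, hfE⟩

/-- an edge of a good circuit outside a ball -/
theorem mn_fE (hcnt : S_cnt) (hG : G.Connected) {E : Finset (Sym2 V)} (hE : GoodCirc G L r E)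
    {u : V} (hu : u ∈ vs E) {ρ : ℕ} (hρ : ρ ≤ r) (hL : 2 * ρ + 1 < L) :
    ∃ f ∈ E, ¬ ∀ v ∈ f, G.dist u v ≤ ρ := by
  obtain ⟨hcard, hc⟩ := hcnt V G hG L r E hE
  have h1 := hc u hu ρ hρ
  obtain ⟨f, hf, hf'⟩ := Finset.exists_mem_notMem_of_card_lt_card
    (lt_of_le_of_lt h1 (lt_of_lt_of_le hL hcard))
  rw [Finset.mem_filter] at hf'
  exact ⟨f, hf, fun h => hf' ⟨hf, h⟩⟩

theorem mn_vHa {P2 : Finset (Finset (Sym2 V))} {uE : Finset (Sym2 V) → V} {v : V}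
    (hv : v ∈ vs (Ha G rho r4 Θ e1 e2 A D z P2 uE)) :
    v ∈ vs Θ ∨ (∃ y ∈ A, v ∈ vs (D y) ∧ G.dist (z y) v ≤ rho) ∨
      (∃ E ∈ P2, v ∈ vs E ∧ G.dist (uE E) v ≤ r4) := by
  rw [Ha, mn_mem_vs_union, mn_mem_vs_union, mn_vs_biUnion, mn_vs_biUnion] at hv
  rcases hv with (h1 | ⟨y, hy, h2⟩) | ⟨E, hE, h3⟩
  · exact Or.inl (mn_vs_mono Finset.sdiff_subset h1)
  · exact Or.inr (Or.inl ⟨y, hy, mn_vs_nb h2⟩)
  · exact Or.inr (Or.inr ⟨E, hE, mn_vs_nb h3⟩)

/-- section 4.8 -/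
theorem p_tree (hcyc : S_cyc) (hcnt : S_cnt) (hbal : S_bal) (htwo : S_two) (hext : S_ext)
    (hfnd : S_fnd) (hcon : S_con) : TreeStatement := by
  intro V _ G hG L r rho r3 r4 r5 hn Θ e1 e2 ι κ A B D z cl st P h
  have hsum := hn.sum_le
  have hL := hn.lt_L
  have hself : ∀ v : V, G.dist v v = 0 := fun v => SimpleGraph.dist_self
  have tri : ∀ a b c : V, G.dist a c ≤ G.dist a b + G.dist b c := fun a b c => hG.dist_triangle
  -- the choices
  have hfx : ∀ x : ι, ∃ f : Sym2 V, x ∈ A ∪ B → f ∈ D x ∧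
      (x ∈ A → ¬ ∀ v ∈ f, G.dist (z x) v ≤ rho) ∧ ∀ E ∈ P, f ∉ E := by
    intro x
    by_cases hx : x ∈ A ∪ B
    · obtain ⟨f, h1, h2, h3⟩ := mn_fx hcnt hG hn h hx
      exact ⟨f, fun _ => ⟨h1, h2, h3⟩⟩
    · exact ⟨e1, fun h' => absurd h' hx⟩
  choose fx hfx using hfx
  set P2 : Finset (Finset (Sym2 V)) := P.filter fun E => ¬ TI Θ (A ∪ B) D E with hP2def
  set P1 : Finset (Finset (Sym2 V)) := P.filter fun E => TI Θ (A ∪ B) D E with hP1def
  have hP2P : P2 ⊆ P := Finset.filter_subset _ _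
  have hP1P : P1 ⊆ P := Finset.filter_subset _ _
  have hPne : Nonempty V := hG.nonempty
  have hII : ∀ E : Finset (Sym2 V), ∃ (u : V) (c : κ), E ∈ P2 → IsII G rho Θ A B D z cl st E u c := by
    intro E
    by_cases hE : E ∈ P2
    · rw [hP2def, Finset.mem_filter] at hE
      obtain ⟨u, c, h1, h2, h3, h4⟩ := mn_typeII h hE.1 hE.2
      exact ⟨u, c, fun _ => ⟨h1, h2, h3, h4⟩⟩
    · obtain ⟨v⟩ := hPne
      exact ⟨v, st, fun h' => absurd h' hE⟩
  choose uE cE hII using hII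
  have ha := mn_a hcon hG hn h P2 hP2P uE cE hII
  set H0 := Ha G rho r4 Θ e1 e2 A D z P2 uE with hH0
  -- choice of `f_E` for type II
  have hfE2 : ∀ E : Finset (Sym2 V), ∃ f : Sym2 V, E ∈ P2 → f ∈ E ∧
      ¬ ∀ v ∈ f, G.dist (uE E) v ≤ r4 := by
    intro E
    by_cases hE : E ∈ P2
    · obtain ⟨f, h1, h2⟩ := mn_fE hcnt hG (h.P_good E (hP2P hE)) (hII E hE).mem
        (ρ := r4) (by omega) (by omega)
      exact ⟨f, fun _ => ⟨h1, h2⟩⟩
    · exact ⟨e1, fun h' => absurd h' hE⟩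
  choose f2 hf2 using hfE2
  -- choice of `f_E` for type I
  have hfE1 : ∀ E : Finset (Sym2 V), ∃ f : Sym2 V, E ∈ P1 → f ∈ E ∧
      ((∀ v ∈ vs E, v ∉ vGam Θ (A ∪ B) D) ∨
        ∃ x ∈ A ∪ B, (∀ v ∈ vs E, v ∈ vGam Θ (A ∪ B) D → v ∈ vs (D x)) ∧
          ¬ ∀ v ∈ f, v ∈ vs (D x)) := by
    intro E
    by_cases hE : E ∈ P1
    · have hE' := hE
      rw [hP1def, Finset.mem_filter] at hE'
      have hgood := h.P_good E hE'.1
      have hcard := (hcnt V G hG L r E hgood).1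
      have hne : E.Nonempty := by
        rw [← Finset.card_pos]; omega
      obtain ⟨f0, hf0⟩ := hne
      rcases hE'.2 with h1 | ⟨x, hx, h1⟩
      · exact ⟨f0, fun _ => ⟨hf0, Or.inl h1⟩⟩
      · by_cases hex : ∃ u ∈ vs E, u ∈ vs (D x)
        · obtain ⟨u, hu, hux⟩ := hex
          obtain ⟨f, h2, h3⟩ := mn_fE hcnt hG hgood hu (ρ := r4) (by omega) (by omega)
          refine ⟨f, fun _ => ⟨h2, Or.inr ⟨x, hx, h1, fun h4 => h3 fun v hv => ?_⟩⟩⟩
          exact h.P_near E hE'.1 u hu v (mn_mem_vs.2 ⟨f, h2, hv⟩)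
            (mn_mem_vGam.2 (Or.inr ⟨x, hx, hux⟩)) (mn_mem_vGam.2 (Or.inr ⟨x, hx, h4 v hv⟩))
        · push Not at hex
          refine ⟨f0, fun _ => ⟨hf0, Or.inr ⟨x, hx, h1, fun h4 => ?_⟩⟩⟩
          obtain ⟨v, hv⟩ := mn_exists_mem f0
          exact hex v (mn_mem_vs.2 ⟨f0, hf0, hv⟩) (h4 v hv)
    · exact ⟨e1, fun h' => absurd h' hE⟩
  choose f1 hf1 using hfE1
  -- vertices of erased circuits
  have hvser : ∀ (E : Finset (Sym2 V)) (f : Sym2 V) (v : V), v ∈ vs (E.erase f) → v ∈ vs E :=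
    fun E f v hv => mn_vs_mono (Finset.erase_subset f E) hv
  have hAB : ∀ x ∈ A, x ∉ B := fun x hx hxB => (Finset.disjoint_left.1 h.disj) hx hxB
  -- step (b)
  have hb : Acy G (H0 ∪ A.biUnion fun x => (D x).erase (fx x)) := by
    apply mn_iter A H0 _ ha
    intro x hx S' hS' hxS' hacy
    have hxAB : x ∈ A ∪ B := Finset.mem_union_left _ hx
    refine hbal V G hG L r (D x) _ (h.good x hxAB) hacy (z x) (h.z_mem x hx) rho (by omega)
      (by omega) ?_ ?_ (fx x) (hfx x hxAB).1 ((hfx x hxAB).2.1 hx)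
    · intro e he hd
      apply Finset.mem_union_left
      rw [hH0, Ha]
      apply Finset.mem_union_left
      apply Finset.mem_union_right
      exact Finset.mem_biUnion.2 ⟨x, hx, mn_mem_nb.2 ⟨he, hd⟩⟩
    · intro v hv hvH
      rw [mn_mem_vs_union, mn_vs_biUnion] at hvH
      have hother : ∀ y ∈ A, v ∈ vs (D y) → y ≠ x → G.dist (z x) v ≤ rho := by
        intro y hy hvy hyx
        have := (h.K2 x hx y hy (Ne.symm hyx) v hv v hvy (by rw [hself]; exact Nat.zero_le _)).2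
        rwa [SimpleGraph.dist_comm] at this
      rcases hvH with h1 | ⟨y, hy, h2⟩
      · rcases mn_vHa h1 with hT | ⟨y, hy, hvy, hdy⟩ | ⟨E, hE, hvE, hdE⟩
        · have := (h.K1 x hx v hv v hT (by rw [hself]; exact Nat.zero_le _)).2
          rwa [SimpleGraph.dist_comm] at this
        · by_cases hyx : y = x
          · rw [← hyx]; exact hdy
          · exact hother y hy hvy hyx
        · have := ((hII E hE).dx x hxAB v hvE hv).2.2
          rwa [SimpleGraph.dist_comm] at this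
      · refine hother y (hS' hy) (hvser _ _ _ h2) ?_
        rintro rfl
        exact hxS' hy
  -- step (c)
  have hc : Acy G ((H0 ∪ A.biUnion fun x => (D x).erase (fx x)) ∪
      B.biUnion fun x => (D x).erase (fx x)) := by
    apply mn_iter B _ _ hb
    intro x hx S' hS' hxS' hacy
    have hxAB : x ∈ A ∪ B := Finset.mem_union_right _ hx
    refine mn_att0 hcyc hbal hG (by omega) (h.good x hxAB) hacy ?_ (hfx x hxAB).1
    intro v hv hvH
    have hother : ∀ y ∈ A ∪ B, v ∈ vs (D y) → y ≠ x → False := by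
      intro y hy hvy hyx
      have := h.K3d x hx y hy hyx v hv v hvy
      rw [hself] at this
      omega
    rw [mn_mem_vs_union, mn_mem_vs_union, mn_vs_biUnion, mn_vs_biUnion] at hvH
    rcases hvH with (h1 | ⟨y, hy, h2⟩) | ⟨y, hy, h2⟩
    · rcases mn_vHa h1 with hT | ⟨y, hy, hvy, hdy⟩ | ⟨E, hE, hvE, hdE⟩
      · have := h.K3t x hx v hv v hT
        rw [hself] at this
        omega
      · refine hother y (Finset.mem_union_left _ hy) hvy ?_
        rintro rfl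
        exact hAB _ hy hx
      · exact hAB _ ((hII E hE).dx x hxAB v hvE hv).1 hx
    · refine hother y (Finset.mem_union_left _ hy) (hvser _ _ _ h2) ?_
      rintro rfl
      exact hAB _ hy hx
    · refine hother y (Finset.mem_union_right _ (hS' hy)) (hvser _ _ _ h2) ?_
      rintro rfl
      exact hxS' hy
  set Hc := (H0 ∪ A.biUnion fun x => (D x).erase (fx x)) ∪
      B.biUnion fun x => (D x).erase (fx x) with hHc
  have hvHc : ∀ v ∈ vs Hc, v ∈ vGam Θ (A ∪ B) D ∨ ∃ E ∈ P2, v ∈ vs E ∧ G.dist (uE E) v ≤ r4 := by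
    intro v hv
    rw [hHc, mn_mem_vs_union, mn_mem_vs_union, mn_vs_biUnion, mn_vs_biUnion] at hv
    rcases hv with (h1 | ⟨y, hy, h2⟩) | ⟨y, hy, h2⟩
    · rcases mn_vHa h1 with hT | ⟨y, hy, hvy, hdy⟩ | ⟨E, hE, hvE, hdE⟩
      · exact Or.inl (mn_mem_vGam.2 (Or.inl hT))
      · exact Or.inl (mn_mem_vGam.2 (Or.inr ⟨y, Finset.mem_union_left _ hy, hvy⟩))
      · exact Or.inr ⟨E, hE, hvE, hdE⟩
    · exact Or.inl (mn_mem_vGam.2 (Or.inr ⟨y, Finset.mem_union_left _ hy, hvser _ _ _ h2⟩))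
    · exact Or.inl (mn_mem_vGam.2 (Or.inr ⟨y, Finset.mem_union_right _ hy, hvser _ _ _ h2⟩))
  -- step (d)
  have hd : Acy G (Hc ∪ P2.biUnion fun E => E.erase (f2 E)) := by
    apply mn_iter P2 Hc _ hc
    intro E hE S' hS' hES' hacy
    refine hbal V G hG L r E _ (h.P_good E (hP2P hE)) hacy (uE E) (hII E hE).mem r4 (by omega)
      (by omega) ?_ ?_ (f2 E) (hf2 E hE).1 (hf2 E hE).2
    · intro e he hd
      apply Finset.mem_union_left
      rw [hHc]
      apply Finset.mem_union_left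
      apply Finset.mem_union_left
      rw [hH0, Ha]
      apply Finset.mem_union_right
      exact Finset.mem_biUnion.2 ⟨E, hE, mn_mem_nb.2 ⟨he, hd⟩⟩
    · intro v hv hvH
      rw [mn_mem_vs_union, mn_vs_biUnion] at hvH
      rcases hvH with h1 | ⟨E', hE', h2⟩
      · rcases hvHc v h1 with hg | ⟨E', hE', hvE', hd'⟩
        · exact h.P_near E (hP2P hE) _ (hII E hE).mem v hv (hII E hE).memG hg
        · by_cases hEE : E' = E
          · rw [← hEE]; exact hd'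
          · exact absurd hv ((Finset.disjoint_left.1
              (h.P_disj E' (hP2P hE') E (hP2P hE) hEE)) hvE')
      · have hEE : E' ≠ E := by
          rintro rfl
          exact hES' hE'
        exact absurd hv ((Finset.disjoint_left.1
          (h.P_disj E' (hP2P (hS' hE')) E (hP2P hE) hEE)) (hvser _ _ _ h2))
  set Hd := Hc ∪ P2.biUnion fun E => E.erase (f2 E) with hHd
  have hP12 : ∀ E ∈ P1, E ∉ P2 := by
    intro E h1 h2
    rw [hP1def, Finset.mem_filter] at h1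
    rw [hP2def, Finset.mem_filter] at h2
    exact h2.2 h1.2
  -- step (e)
  have he : Acy G (Hd ∪ P1.biUnion fun E => E.erase (f1 E)) := by
    apply mn_iter P1 Hd _ hd
    intro E hE S' hS' hES' hacy
    have hEP : E ∈ P := hP1P hE
    have hvg : ∀ v ∈ vs E, v ∈ vs (Hd ∪ S'.biUnion fun E => E.erase (f1 E)) →
        v ∈ vGam Θ (A ∪ B) D := by
      intro v hv hvH
      rw [hHd, mn_mem_vs_union, mn_mem_vs_union, mn_vs_biUnion, mn_vs_biUnion] at hvH
      have hother : ∀ E' ∈ P, v ∈ vs E' → E' ≠ E → False := fun E' hE' hvE' hne =>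
        (Finset.disjoint_left.1 (h.P_disj E' hE' E hEP hne)) hvE' hv
      rcases hvH with (h1 | ⟨E', hE', h2⟩) | ⟨E', hE', h2⟩
      · rcases hvHc v h1 with hg | ⟨E', hE', hvE', hd'⟩
        · exact hg
        · exact (hother E' (hP2P hE') hvE' (by rintro rfl; exact hP12 _ hE hE')).elim
      · exact (hother E' (hP2P hE') (hvser _ _ _ h2) (by rintro rfl; exact hP12 _ hE hE')).elim
      · exact (hother E' (hP1P (hS' hE')) (hvser _ _ _ h2) (by rintro rfl; exact hES' hE')).elim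
    obtain ⟨hfm, hcase⟩ := hf1 E hE
    rcases hcase with h1 | ⟨x, hx, h1, h2⟩
    · exact mn_att0 hcyc hbal hG (by omega) (h.P_good E hEP) hacy
        (fun v hv hvH => h1 v hv (hvg v hv hvH)) hfm
    · refine htwo V G hG L r (D x) E _ (h.good x hx) (h.P_good E hEP) hacy r4 (by omega) (by omega)
        (fx x) ((hfx x hx).2.2 E hEP) ?_ (fun v hv hvH => h1 v hv (hvg v hv hvH))
        (fun u hu v hv huH hvH => h.P_near E hEP u hu v hv (hvg u hu huH) (hvg v hv hvH))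
        (f1 E) hfm h2
      intro e he
      apply Finset.mem_union_left
      rw [hHd]
      apply Finset.mem_union_left
      rw [hHc]
      rcases Finset.mem_union.1 hx with hxA | hxB
      · apply Finset.mem_union_left
        apply Finset.mem_union_right
        exact Finset.mem_biUnion.2 ⟨x, hxA, he⟩
      · apply Finset.mem_union_right
        exact Finset.mem_biUnion.2 ⟨x, hxB, he⟩
  set He := Hd ∪ P1.biUnion fun E => E.erase (f1 E) with hHe
  have h0c : H0 ⊆ Hc := by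
    rw [hHc]; exact Finset.subset_union_left.trans Finset.subset_union_left
  have hcd : Hc ⊆ Hd := by rw [hHd]; exact Finset.subset_union_left
  have hde : Hd ⊆ He := by rw [hHe]; exact Finset.subset_union_left
  have hedge : ∀ e ∈ He, e ∈ G.edgeSet := by
    intro e heH
    simp only [hHe, hHd, hHc, hH0, Ha, Finset.mem_union, Finset.mem_biUnion] at heH
    rcases heH with ((((((h1 | ⟨x, hx, h1⟩) | ⟨E, hE, h1⟩) | ⟨x, hx, h1⟩) | ⟨x, hx, h1⟩) |
      ⟨E, hE, h1⟩) | ⟨E, hE, h1⟩)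
    · exact h.th_edges e (Finset.mem_sdiff.1 h1).1
    · exact mn_edge hcyc (h.good x (Finset.mem_union_left _ hx)) e (mn_mem_nb.1 h1).1
    · exact mn_edge hcyc (h.P_good E (hP2P hE)) e (mn_mem_nb.1 h1).1
    · exact mn_edge hcyc (h.good x (Finset.mem_union_left _ hx)) e (Finset.mem_of_mem_erase h1)
    · exact mn_edge hcyc (h.good x (Finset.mem_union_right _ hx)) e (Finset.mem_of_mem_erase h1)
    · exact mn_edge hcyc (h.P_good E (hP2P hE)) e (Finset.mem_of_mem_erase h1)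
    · exact mn_edge hcyc (h.P_good E (hP1P hE)) e (Finset.mem_of_mem_erase h1)
  obtain ⟨T, hT, hHT, hTa⟩ := hext V G hG He hedge he
  have hcirc : ∀ E : Finset (Sym2 V), GoodCirc G L r E → IsCirc G E := by
    intro E hE
    obtain ⟨m, γ, hγ, -⟩ := hE.cyc
    exact ⟨m, γ, hγ⟩
  refine ⟨T, hT, ?_, ?_, ?_⟩
  · intro e he'
    apply hHT
    apply hde
    apply hcd
    apply h0c
    rw [hH0, Ha]
    exact Finset.mem_union_left _ (Finset.mem_union_left _ he')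
  · intro x hx
    refine (hfnd V G T (D x) (fx x) hTa (hcirc _ (h.good x hx)) (hfx x hx).1 ?_).1
    intro e he'
    apply hHT
    apply hde
    apply hcd
    rw [hHc]
    rcases Finset.mem_union.1 hx with hxA | hxB
    · apply Finset.mem_union_left
      apply Finset.mem_union_right
      exact Finset.mem_biUnion.2 ⟨x, hxA, he'⟩
    · apply Finset.mem_union_right
      exact Finset.mem_biUnion.2 ⟨x, hxB, he'⟩
  · intro E hE
    by_cases hti : TI Θ (A ∪ B) D E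
    · have hE1 : E ∈ P1 := by rw [hP1def, Finset.mem_filter]; exact ⟨hE, hti⟩
      refine (hfnd V G T E (f1 E) hTa (hcirc _ (h.P_good E hE)) (hf1 E hE1).1 ?_).1
      intro e he'
      apply hHT
      rw [hHe]
      exact Finset.mem_union_right _ (Finset.mem_biUnion.2 ⟨E, hE1, he'⟩)
    · have hE2 : E ∈ P2 := by rw [hP2def, Finset.mem_filter]; exact ⟨hE, hti⟩
      refine (hfnd V G T E (f2 E) hTa (hcirc _ (h.P_good E hE)) (hf2 E hE2).1 ?_).1
      intro e he'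
      apply hHT
      apply hde
      rw [hHd]
      exact Finset.mem_union_right _ (Finset.mem_biUnion.2 ⟨E, hE2, he'⟩)

end Pool.Agent.Lib.MP_fce888_co.C48
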