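import Pool.Agent.Lib.MP_fce888_co.C48.Stm

set_option autoImplicit false

/-!
# MP_fce888_co, section 4.8, piece [uni]: uniqueness of geodesics near `u`
-/

namespace Pool.Agent.Lib.MP_fce888_co.C48

open Finset Pool.Agent.Lib.MP_fce888_co
open scoped Classical

/-- closed walk `g 0, .., g m = g 0` with distinct vertices gives a circuit -/
theorem uni_cyc {V : Type} [Fintype V] {G : SimpleGraph V} (m : ℕ) (g : ℕ → V) (hm : 3 ≤ m)
    (h0 : g m = g 0) (hinj : ∀ s < m, ∀ t < m, g s = g t → s = t)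
    (hadj : ∀ t < m, G.Adj (g t) (g (t + 1))) :
    ∃ D : Finset (Sym2 V), IsCirc G D ∧ ∀ v ∈ vs D, ∃ t < m, v = g t := by
  have hm0 : (0 : ℤ) < (m : ℤ) := by omega
  set γ : ℤ → V := fun z => g (z % (m : ℤ)).toNat with hγ
  have hlt : ∀ z : ℤ, (z % (m : ℤ)).toNat < m := fun z => by
    have h1 := Int.emod_nonneg z (ne_of_gt hm0)
    have h2 := Int.emod_lt_of_pos z hm0
    omega
  refine ⟨(range m).image fun i : ℕ => s(γ (i : ℤ), γ ((i : ℤ) + 1)), ⟨m, γ, hm, ?_, ?_, rfl⟩, ?_⟩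
  · intro i j
    have hi := Int.emod_nonneg i (ne_of_gt hm0)
    have hj := Int.emod_nonneg j (ne_of_gt hm0)
    constructor
    · intro h
      have h1 : (i % (m : ℤ)).toNat = (j % (m : ℤ)).toNat := hinj _ (hlt i) _ (hlt j) h
      have h2 : i % (m : ℤ) = j % (m : ℤ) := by omega
      exact Int.dvd_of_emod_eq_zero (Int.emod_eq_emod_iff_emod_sub_eq_zero.1 h2)
    · intro h
      have h2 : i % (m : ℤ) = j % (m : ℤ) :=
        Int.emod_eq_emod_iff_emod_sub_eq_zero.2 (Int.emod_eq_zero_of_dvd h)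
      show g (i % (m : ℤ)).toNat = g (j % (m : ℤ)).toNat
      rw [h2]
  · intro i
    have hi := Int.emod_nonneg i (ne_of_gt hm0)
    have hi2 := Int.emod_lt_of_pos i hm0
    have key : g ((i + 1) % (m : ℤ)).toNat = g ((i % (m : ℤ)).toNat + 1) := by
      rcases lt_or_ge (i % (m : ℤ) + 1) (m : ℤ) with h | h
      · have h1 : (i + 1) % (m : ℤ) = i % (m : ℤ) + 1 := by
          rw [Int.add_emod, Int.emod_eq_of_lt (a := 1) (by omega) (by omega),
            Int.emod_eq_of_lt (by omega) h]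
        rw [h1]
        congr 1
        omega
      · have h3 : i % (m : ℤ) + 1 = (m : ℤ) := by omega
        have h1 : (i + 1) % (m : ℤ) = 0 := by
          rw [Int.add_emod, Int.emod_eq_of_lt (a := 1) (by omega) (by omega), h3, Int.emod_self]
        have h4 : (i % (m : ℤ)).toNat + 1 = m := by omega
        rw [h1, h4, h0]
        rfl
    show G.Adj (g (i % (m : ℤ)).toNat) (g ((i + 1) % (m : ℤ)).toNat)
    rw [key]
    exact hadj _ (hlt i)
  · intro v hv
    obtain ⟨e, he, hve⟩ := (Finset.mem_filter.1 hv).2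
    obtain ⟨i, _, rfl⟩ := Finset.mem_image.1 he
    rcases Sym2.mem_iff.1 hve with h | h
    · exact ⟨_, hlt (i : ℤ), h⟩
    · exact ⟨_, hlt ((i : ℤ) + 1), h⟩

theorem p_uni : S_uni := by
  intro V _ G r u htb d a b hdr ha0 hb0 hd haa hba hal hbl i hi
  by_contra hne
  -- last agreement before `i`
  obtain ⟨i0, hi0i, hi0e, hi0m⟩ : ∃ i0, i0 ≤ i ∧ a i0 = b i0 ∧ ∀ t, i0 < t → t ≤ i → a t ≠ b t := by
    have hP : ∃ n, n ≤ i ∧ a (i - n) = b (i - n) := ⟨i, le_rfl, by simp [ha0, hb0]⟩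
    refine ⟨i - Nat.find hP, Nat.sub_le _ _, (Nat.find_spec hP).2, ?_⟩
    intro t ht hti he
    have h1 := (Nat.find_spec hP).1
    have h2 : i - t < Nat.find hP := by omega
    exact Nat.find_min hP h2 ⟨Nat.sub_le _ _, by rw [Nat.sub_sub_self hti]; exact he⟩
  have hi0lt : i0 < i := lt_of_le_of_ne hi0i (fun h => hne (h ▸ hi0e))
  -- first agreement after `i`
  obtain ⟨j0, hj0i, hj0d, hj0e, hj0m⟩ :
      ∃ j0, i < j0 ∧ j0 ≤ d ∧ a j0 = b j0 ∧ ∀ t, i < t → t < j0 → a t ≠ b t := by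
    have hid : i < d := lt_of_le_of_ne hi (fun h => hne (h ▸ hd))
    have hP : ∃ n, i < n ∧ n ≤ d ∧ a n = b n := ⟨d, hid, le_rfl, hd⟩
    refine ⟨Nat.find hP, (Nat.find_spec hP).1, (Nat.find_spec hP).2.1, (Nat.find_spec hP).2.2, ?_⟩
    intro t ht1 ht2 he
    exact Nat.find_min hP ht2 ⟨ht1, by have := (Nat.find_spec hP).2.1; omega, he⟩
  have hmid : ∀ t, i0 < t → t < j0 → a t ≠ b t := by
    intro t h1 h2
    rcases le_or_gt t i with h | h
    · exact hi0m t h1 h
    · exact hj0m t h h2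
  obtain ⟨k, rfl⟩ : ∃ k, j0 = i0 + k := ⟨j0 - i0, by omega⟩
  have hk : 2 ≤ k := by omega
  set g : ℕ → V := fun t => if t ≤ k then a (i0 + t) else b (i0 + 2 * k - t) with hg
  have hg1 : ∀ t, t ≤ k → g t = a (i0 + t) := fun t ht => by simp [hg, ht]
  have hg2 : ∀ t, k ≤ t → t ≤ 2 * k → g t = b (i0 + 2 * k - t) := fun t ht ht2 => by
    rcases Nat.eq_or_lt_of_le ht with h | h
    · subst h
      rw [hg1 _ le_rfl, hj0e]
      congr 1
      omega
    · simp [hg, Nat.not_le.2 h]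
  have hlev1 : ∀ t, t ≤ k → G.dist u (g t) = i0 + t := fun t ht => by
    rw [hg1 t ht]; exact hal _ (by omega)
  have hlev2 : ∀ t, k ≤ t → t ≤ 2 * k → G.dist u (g t) = i0 + 2 * k - t := fun t ht ht2 => by
    rw [hg2 t ht ht2]; exact hbl _ (by omega)
  have hcross : ∀ s t, s ≤ k → k < t → t < 2 * k → g s ≠ g t := by
    intro s t hs ht ht2 he
    have h1 := hlev1 s hs
    have h2 := hlev2 t ht.le ht2.le
    rw [he, h2] at h1
    have h3 : i0 + 2 * k - t = i0 + s := h1
    rw [hg1 s hs, hg2 t ht.le ht2.le, h3] at he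
    exact hmid (i0 + s) (by omega) (by omega) he
  obtain ⟨D, hD, hDv⟩ := uni_cyc (G := G) (2 * k) g (by omega)
    (by
      rw [hg2 _ (by omega) le_rfl, hg1 0 (Nat.zero_le _)]
      simpa using hi0e.symm)
    (by
      intro s hs t ht he
      rcases le_or_gt s k with h1 | h1 <;> rcases le_or_gt t k with h2 | h2
      · have e1 := hlev1 s h1
        have e2 := hlev1 t h2
        rw [he] at e1
        omega
      · exact absurd he (hcross s t h1 h2 ht)
      · exact absurd he.symm (hcross t s h2 h1 hs)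
      · have e1 := hlev2 s h1.le hs.le
        have e2 := hlev2 t h2.le ht.le
        rw [he] at e1
        omega)
    (by
      intro t ht
      rcases lt_or_ge t k with h | h
      · rw [hg1 t h.le, hg1 (t + 1) h]
        exact haa (i0 + t) (by omega)
      · rw [hg2 t h ht.le, hg2 (t + 1) (by omega) (by omega)]
        have h1 : i0 + 2 * k - t = i0 + 2 * k - (t + 1) + 1 := by omega
        rw [h1]
        exact (hba _ (by omega)).symm)
  refine htb D hD (fun v hv => ?_)
  obtain ⟨t, ht, rfl⟩ := hDv v hv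
  rcases le_or_gt t k with h | h
  · rw [hlev1 t h]; omega
  · rw [hlev2 t h.le ht.le]; omega

end Pool.Agent.Lib.MP_fce888_co.C48
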