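import Pool.Agent.Lib.MP_fce888_co.C48.Defs

set_option autoImplicit false

/-!
# MP_fce888_co, section 4.8: statements of the pieces

Convention: prove `theorem p_xxx : S_xxx` in `C48/P_xxx.lean` (importing this file; you may also import
`Pool.Agent.Lib.MP_fce888_co.Basics` of helper15 if it is on main).
-/

namespace Pool.Agent.Lib.MP_fce888_co.C48

open Finset
open scoped Classical
open Pool.Agent.Lib.MP_fce888_co

/-- [deg] Every vertex of a circuit lies on two different edges of it.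
Proof: `e = s(γ i, γ (i+1))` (`i : ℕ`, from `IsCyc`). If `v = γ i` take `e' = s(γ (i-1), γ i)`; it is in `D`:
reduce `i - 1` modulo `m` to `range m` (`γ` is `m`-periodic by the second field; `(i-1) % m` as a natural number).
If `v = γ (i+1)` take `e' = s(γ (i+1), γ (i+2))`. `e' ≠ e` since `γ (i-1) ≠ γ (i+1)` (`m ≥ 3` does not divide 2).
Useful general fact (prove it as a lemma): `∀ i : ℤ, s(γ i, γ (i+1)) ∈ D`. -/
def S_deg : Prop :=
  ∀ (V : Type) [Fintype V] (G : SimpleGraph V) (Z : Finset (Sym2 V)), IsCirc G Z →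
    ∀ e ∈ Z, ∀ v ∈ e, ∃ e' ∈ Z, e' ≠ e ∧ v ∈ e'

/-- [cyc] Elementary facts on `IsCyc`.  (1) every shifted edge is in `D`; (2) shifting the parametrisation;
(3) reversing it; (4) `v ∈ vs D ↔ ∃ i, γ i = v`; (5) `D.card = m`; (6) edges of `G`; (7) every edge of `D` is
`s(γ i, γ (i+1))` for some `i` in any window `[p, p+m)`. (8) `s(γ i,γ (i+1)) = s(γ j,γ (j+1)) ↔ m ∣ i - j`.
(9) incident edges: `e ∈ D`, `γ i ∈ e` implies `e = s(γ (i-1), γ i)` or `e = s(γ i, γ (i+1))`.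
Proofs: periodicity `γ (i + k m) = γ i`, `Int.emod`; (8): if `γ i = γ (j+1)` and `γ (i+1) = γ j` then `m` divides
`i-j-1` and `i+1-j`, hence 2, contradiction to `m ≥ 3`. (5) from (8). -/
def S_cyc : Prop :=
  ∀ (V : Type) [Fintype V] (G : SimpleGraph V) (D : Finset (Sym2 V)) (m : ℕ) (γ : ℤ → V),
    IsCyc G D m γ →
    (∀ i : ℤ, s(γ i, γ (i + 1)) ∈ D) ∧
    (∀ c : ℤ, IsCyc G D m fun i => γ (i + c)) ∧
    (IsCyc G D m fun i => γ (-i)) ∧
    (∀ v, v ∈ vs D ↔ ∃ i : ℤ, γ i = v) ∧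
    D.card = m ∧
    (∀ e ∈ D, e ∈ G.edgeSet) ∧
    (∀ e ∈ D, ∀ p : ℤ, ∃ i : ℤ, p ≤ i ∧ i < p + m ∧ e = s(γ i, γ (i + 1))) ∧
    (∀ i j : ℤ, s(γ i, γ (i + 1)) = s(γ j, γ (j + 1)) ↔ (m : ℤ) ∣ i - j) ∧
    (∀ e ∈ D, ∀ i : ℤ, γ i ∈ e → e = s(γ (i - 1), γ i) ∨ e = s(γ i, γ (i + 1)))

/-- [att] ATTACH LEMMA.  `H` acyclic, the edges of the arc `γ p .. γ q` of the circuit `D` are in `H`, all other
vertices of `D` are not in `vs H`, the edge `f` is outside the arc. (`p = q` covers the cases 'one common vertex' and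
'no common vertex'; nothing is assumed on `γ p`.)
Proof. Let `Z ⊆ H ∪ D.erase f` be a circuit, `f = s(γ j, γ (j+1))`, `q ≤ j < p + m`.
(i) `f ∉ H`: if `f ∈ H` then `γ j, γ (j+1) ∈ vs H`, so `j` is not in `(q, p+m)`, i.e. `j = q`, and `j + 1` is not in
 `(q, p+m)`, i.e. `j + 1 = p + m` (as `q < p + m`); then all edges `s(γ i, γ(i+1))`, `p ≤ i < p + m`, are in `H`, so `D ⊆ H`,
 contradiction to `Acy G H`.  Hence `f ∉ Z`.
(ii) for `j < i < p + m`, the edge `s(γ i, γ (i+1)) ∉ Z`, by induction on `i` (start `i = j+1` uses `f ∉ Z`): `γ i ∉ vs H`,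
 so the edges of `Z` at `γ i` are edges of `D`, i.e. among `s(γ (i-1), γ i)`, `s(γ i, γ (i+1))` ([cyc] (9)); the first is not in `Z`
 by induction; by [deg] the second is not in `Z`.
(iii) for `q ≤ i < j`, the edge `s(γ i, γ (i+1)) ∉ Z`, by downward induction (start `i + 1 = j` uses `f ∉ Z`): vertex `γ (i+1)`,
 `q < i + 1 < p + m`, is not in `vs H`; its edges in `Z` are among `s(γ i, γ(i+1))`, `s(γ(i+1), γ(i+2))`.
(iv) so `Z ⊆ H`: an edge `e ∈ Z` is in `H` or in `D`, in the latter case `e = s(γ i, γ(i+1))`, `p ≤ i < p+m` ([cyc] (7));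
 `i < q` gives `e ∈ H`, `i ≥ q` is excluded by (i)-(iii). Contradiction. -/
def S_att : Prop :=
  ∀ (V : Type) [Fintype V] (G : SimpleGraph V) (H D : Finset (Sym2 V)) (m : ℕ) (γ : ℤ → V) (p q : ℤ)
    (f : Sym2 V), Acy G H → IsCyc G D m γ → p ≤ q → q < p + m →
    (∀ i, p ≤ i → i < q → s(γ i, γ (i + 1)) ∈ H) →
    (∀ i, q < i → i < p + m → γ i ∉ vs H) →
    (∃ j, q ≤ j ∧ j < p + m ∧ f = s(γ j, γ (j + 1))) →
    Acy G (H ∪ D.erase f)

/-- [pos] positions on a good circuit, seen from a vertex `u`.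
Proof: take `m, γ'` from `GoodCirc.cyc`, `γ' c = u` ([cyc] (4)), `γ i := γ' (i + c)` ([cyc] (2)).
The third property is NE for the pair `(c, i + c)` (either disjunct; `m ∣ (c - (i + c)) - d` is `m ∣ -(i + d)`).
The fourth: `γ` is a walk: `dist (γ 0) (γ i) ≤ |i|` (induction, `SimpleGraph.Connected.dist_triangle`, adjacent vertices
have distance 1). -/
def S_pos : Prop :=
  ∀ (V : Type) [Fintype V] (G : SimpleGraph V), G.Connected → ∀ (L r : ℕ) (D : Finset (Sym2 V)),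
    GoodCirc G L r D → ∀ u ∈ vs D, ∃ (m : ℕ) (γ : ℤ → V), IsCyc G D m γ ∧ L ≤ m ∧ γ 0 = u ∧
      (∀ i : ℤ, G.dist u (γ i) ≤ r →
        (m : ℤ) ∣ i - (G.dist u (γ i) : ℤ) ∨ (m : ℤ) ∣ i + (G.dist u (γ i) : ℤ)) ∧
      (∀ i : ℤ, G.dist u (γ i) ≤ i.natAbs)

/-- [cnt] few edges of a good circuit are near a given vertex, and it has at least `L` edges.
Proof ([pos], [cyc]): the edges of `D` are `s(γ i, γ(i+1))`, `0 ≤ i < m`; if both ends are within `ρ ≤ r` of `u = γ 0`, then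
`i ≡ ± dist u (γ i) (mod m)`, so `i ≡ k (mod m)` with `-ρ ≤ k ≤ ρ`: the edge is in the image of
`Finset.Icc (-ρ) ρ` under `k ↦ s(γ k, γ(k+1))`, a set with `2ρ+1` elements. If `u ∉ vs D` choose another centre: if the filter
is empty nothing is to be proved; otherwise a vertex `u'` of such an edge is within `ρ` of `u` and all of them are within `2ρ` of `u'`:
we avoid this case by assuming `u ∈ vs D`. -/
def S_cnt : Prop :=
  ∀ (V : Type) [Fintype V] (G : SimpleGraph V), G.Connected → ∀ (L r : ℕ) (D : Finset (Sym2 V)),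
    GoodCirc G L r D → L ≤ D.card ∧ ∀ u ∈ vs D, ∀ ρ ≤ r,
      (D.filter fun e => ∀ v ∈ e, G.dist u v ≤ ρ).card ≤ 2 * ρ + 1

/-- [bal] attaching a good circuit along the ball of radius `ρ` around one of its vertices.
Proof: [pos] gives `m, γ` with `γ 0 = u`. Apply [att] with `p = -ρ`, `q = ρ` (`2ρ < L ≤ m`).
 * `-ρ ≤ i < ρ`: both ends of `s(γ i, γ (i+1))` are within `ρ` of `u` (fourth property of [pos]), so the edge is in `H`.
 * `ρ < i < m - ρ`: `γ i ∉ vs H`: otherwise `dist u (γ i) =: d ≤ ρ ≤ r` and `m ∣ i - d` or `m ∣ i + d`; but `0 < i - d < m` and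
   `0 < i + d < m`. Contradiction.
 * `f = s(γ j, γ(j+1))` with `-ρ ≤ j < m - ρ` ([cyc] (7)); if `j < ρ` both ends are within `ρ` of `u`, excluded. So `j ≥ ρ`. -/
def S_bal : Prop :=
  ∀ (V : Type) [Fintype V] (G : SimpleGraph V), G.Connected → ∀ (L r : ℕ) (D H : Finset (Sym2 V)),
    GoodCirc G L r D → Acy G H → ∀ u ∈ vs D, ∀ ρ ≤ r, 2 * ρ < L →
    (∀ e ∈ D, (∀ v ∈ e, G.dist u v ≤ ρ) → e ∈ H) →
    (∀ v ∈ vs D, v ∈ vs H → G.dist u v ≤ ρ) →
    ∀ f ∈ D, ¬ (∀ v ∈ f, G.dist u v ≤ ρ) → Acy G (H ∪ D.erase f)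

/-- [uni] uniqueness of geodesics near a vertex `u` around which there is no circuit (TB).
`a, b : ℕ → V` are walks of length `d ≤ r` from `u`, with the same end, `dist u (a i) = i = dist u (b i)`.
Proof: suppose `a i ≠ b i` for some `i ≤ d`; let `i0 < i` be the last index before it with `a i0 = b i0` (`a 0 = b 0 = u`) and
`j0 > i` the first one after it (`a d = b d`). Then `k := j0 - i0 ≥ 2` and the vertices `a i0, .., a j0 = b j0, b (j0-1), .., b (i0+1)`
are distinct (levels = distances from `u`; `a t ≠ b t` for `i0 < t < j0`): they form a circuit with `2k` edges, all vertices at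
distance `≤ d ≤ r` from `u`; parametrise it by `γ t = a (i0 + t)` for `0 ≤ t ≤ k`, `γ t = b (i0 + 2k - t)` for `k ≤ t ≤ 2k`,
extended by `t % (2k)`. Contradiction to `htb`.
(Alternative: work with the subgraph of `G` induced on the ball of radius `r` around `u`; it has no cycle, so it is acyclic,
and `IsAcyclic.path_unique`; needs the translation of Mathlib cycles into `IsCirc`, see Basics of helper15.) -/
def S_uni : Prop :=
  ∀ (V : Type) [Fintype V] (G : SimpleGraph V) (r : ℕ) (u : V),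
    (∀ Z, IsCirc G Z → ¬ ∀ v ∈ vs Z, G.dist u v ≤ r) →
    ∀ (d : ℕ) (a b : ℕ → V), d ≤ r → a 0 = u → b 0 = u → a d = b d →
      (∀ i < d, G.Adj (a i) (a (i + 1))) → (∀ i < d, G.Adj (b i) (b (i + 1))) →
      (∀ i ≤ d, G.dist u (a i) = i) → (∀ i ≤ d, G.dist u (b i) = i) → ∀ i ≤ d, a i = b i

/-- [two] attaching a planted circuit `E` of type I along its intersection with `D` (`D.erase f' ⊆ H`, `f' ∉ E`).
Proof. If `vs E ∩ vs H = ∅`: [bal] with `ρ = 0` and any `u ∈ vs E` (an edge has two different vertices, so it is not within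
distance 0 of `u`).  Otherwise let `u ∈ vs E ∩ vs H ⊆ vs D`; [pos] for `E` from `u`: `m, γ`. Let
`S := {i : -ρ ≤ i ≤ ρ, γ i ∈ vs H}`, `0 ∈ S`, `p := min S`, `q := max S`; `q < p + m` since `q - p ≤ 2ρ < L ≤ m`.
Every `i` with `p ≤ i < p + m` and `γ i ∈ vs H` has `i ≤ q`: `d := dist u (γ i) ≤ ρ`, `m ∣ i - d` or `m ∣ i + d`, with
`-ρ ≤ i < m + ρ`.. so `i = d`, `i = -d` (in `S`, so `≤ q`) or `i = m + d`, `i = m - d`: then `i - m ∈ S`, so `i - m ≥ p`, contradiction.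
Now `γ p, γ q ∈ vs H ∩ vs E ⊆ vs D`, `d := dist (γ p) (γ q) ≤ ρ`. NE for `E` ([pos] from `γ p`, or `GoodCirc.cyc`): `m ∣ (q-p) ∓ d`,
`0 ≤ q - p ≤ 2ρ`, `3ρ < L`: so `q - p = d`.  [pos] for `D` from `γ p`: `m', γ'`, `γ' 0 = γ p`, `γ q = γ' c` with `m' ∣ c ∓ d`;
reversing `γ'` if necessary ([cyc] (3)) `γ' d = γ q`.  Both `i ↦ γ (p + i)` and `i ↦ γ' i`, `i ≤ d`, are geodesics from `γ p`:
`dist (γ p) (γ (p+i)) ≤ i` and `dist (γ (p+i)) (γ q) ≤ d - i` force equality.  By [uni] (TB of `E` at `γ p`) they coincide, so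
`s(γ i, γ(i+1)) ∈ D` for `p ≤ i < q`, and it is in `E`, so it is not `f'`: it is in `D.erase f' ⊆ H`.
`f = s(γ j, γ (j+1))`, `p ≤ j < p + m`; `j ≥ q`, because for `p ≤ j < q` both ends would be in `vs D` (by the above). Apply [att]. -/
def S_two : Prop :=
  ∀ (V : Type) [Fintype V] (G : SimpleGraph V), G.Connected → ∀ (L r : ℕ) (D E H : Finset (Sym2 V)),
    GoodCirc G L r D → GoodCirc G L r E → Acy G H → ∀ ρ ≤ r, 4 * ρ + 1 < L →
    ∀ f', f' ∉ E → D.erase f' ⊆ H →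
    (∀ v ∈ vs E, v ∈ vs H → v ∈ vs D) →
    (∀ u ∈ vs E, ∀ v ∈ vs E, u ∈ vs H → v ∈ vs H → G.dist u v ≤ ρ) →
    ∀ f ∈ E, ¬ (∀ v ∈ f, v ∈ vs D) → Acy G (H ∪ E.erase f)

/-- [ext] acyclic edge sets of a connected graph extend to spanning trees (see Basics of helper15;
Mathlib: `SimpleGraph.Connected.exists_isTree_le_of_le_of_isAcyclic`), and spanning trees are acyclic. -/
def S_ext : Prop :=
  ∀ (V : Type) [Fintype V] (G : SimpleGraph V), G.Connected → ∀ H : Finset (Sym2 V),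
    (∀ e ∈ H, e ∈ G.edgeSet) → Acy G H → ∃ T, IsSpT G T ∧ H ⊆ T ∧ Acy G T

/-- [fnd] fundamental circuits. Proof: `T` is acyclic (`IsSpT` gives a tree, a circuit inside `T` would be a Mathlib cycle, or use
Basics), so `f ∉ T` (otherwise `D ⊆ T`) and `D \ T = {f}`. -/
def S_fnd : Prop :=
  ∀ (V : Type) [Fintype V] (G : SimpleGraph V) (T D : Finset (Sym2 V)) (f : Sym2 V),
    Acy G T → IsCirc G D → f ∈ D → D.erase f ⊆ T → (D \ T).card = 1 ∧ f ∉ T

/-- [con] a labelling of the edges of a circuit which is constant on consecutive edges is constant.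
`R e c` : the edge `e` belongs to a piece with label `c`. Every edge of `Z` has a label, and labels of edges with a common
vertex are equal (in particular the label of an edge is unique). Then all edges of `Z` have one common label.
Proof: `γ` from `IsCirc`; `R (s(γ 0, γ 1)) c`; induction over `i : ℕ`: `R (s(γ i, γ (i+1))) c`. -/
def S_con : Prop :=
  ∀ (V : Type) [Fintype V] (G : SimpleGraph V) (Z : Finset (Sym2 V)) (κ : Type) (R : Sym2 V → κ → Prop),
    IsCirc G Z → (∀ e ∈ Z, ∃ c, R e c) →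
    (∀ e ∈ Z, ∀ e' ∈ Z, ∀ v, v ∈ e → v ∈ e' → ∀ c c', R e c → R e' c' → c = c') →
    ∃ c, ∀ e ∈ Z, R e c

end Pool.Agent.Lib.MP_fce888_co.C48
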